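import Mathlib
import Pool.Agent.R221.SK.Defs

/-! Strongly Kreiss bounded operators on Banach spaces with Fourier type `p`: definitions and
statements of the pieces. -/

namespace Pool.Agent.R221.FT
open Finset MeasureTheory
open scoped Real
universe u

section Defs
variable {X : Type u} [NormedAddCommGroup X] [NormedSpace ℂ X]

/-- strongly Kreiss bounded with constant `K` -/
def Good (K : ℝ) (T : X →L[ℂ] X) : Prop := ∀ ζ : ℂ, 1 < ‖ζ‖ →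
  IsUnit (algebraMap ℂ (X →L[ℂ] X) ζ - T) ∧
    ∀ k : ℕ, 1 ≤ k → ‖(resolvent T ζ) ^ k‖ ≤ K / (‖ζ‖ - 1) ^ k

/-- rotation `e^{iθ} T` -/
noncomputable def rot (T : X →L[ℂ] X) (θ : ℝ) : X →L[ℂ] X :=
  Complex.exp ((θ : ℂ) * Complex.I) • T

/-- resolvent at `1 + 1/m` -/
noncomputable def Rs (m : ℕ) (T : X →L[ℂ] X) : X →L[ℂ] X := resolvent T ((1 : ℂ) + 1 / (m : ℂ))

/-- resolvent at `2` -/
noncomputable def Vs (T : X →L[ℂ] X) : X →L[ℂ] X := resolvent T (2 : ℂ)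

/-- adjoint on the dual space -/
noncomputable def adj (T : X →L[ℂ] X) : (X →L[ℂ] ℂ) →L[ℂ] (X →L[ℂ] ℂ) :=
  ContinuousLinearMap.precomp ℂ T

/-- growth of the resolvent in `L^q` of the circle -/
def Grow (T : X →L[ℂ] X) (q s D : ℝ) (κ : ℕ) : Prop := ∀ (f : X) (n : ℕ), 1 ≤ n →
  ∫ θ in (0 : ℝ)..(2 * π), ‖Rs n (rot T θ) f‖ ^ q ≤
    D * (n : ℝ) ^ s * (1 + Real.log n) ^ κ * ‖f‖ ^ q

end Defs

/-- Fourier type `p` with constant `C` (`q` is the conjugate exponent). -/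
def FourierType (X : Type u) [NormedAddCommGroup X] [NormedSpace ℂ X] (p q C : ℝ) : Prop :=
  ∀ (n : ℕ) (x : ℕ → X),
    ∫ t in (0 : ℝ)..(2 * π), ‖∑ k ∈ range n, Complex.exp ((k : ℂ) * (t : ℂ) * Complex.I) • x k‖ ^ q ≤
      2 * π * (C * (∑ k ∈ range n, ‖x k‖ ^ p) ^ (1 / p)) ^ q

/-- rotations of good operators are good; continuity in the angle -/
def S_rot : Prop := ∀ (X : Type u) [NormedAddCommGroup X] [NormedSpace ℂ X] [CompleteSpace X]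
  (K : ℝ) (T : X →L[ℂ] X), Good K T → (∀ θ, Good K (rot T θ)) ∧
    (∀ m : ℕ, 1 ≤ m → Continuous fun θ : ℝ => Rs m (rot T θ)) ∧
    Continuous fun θ : ℝ => Vs (rot T θ)

/-- algebraic comparisons -/
def S_cmp : Prop := ∀ (X : Type u) [NormedAddCommGroup X] [NormedSpace ℂ X] [CompleteSpace X]
  (K : ℝ) (T : X →L[ℂ] X), 1 ≤ K → Good K T →
    (∀ (m n : ℕ) (f : X), 1 ≤ m → m ≤ n → ‖Rs m T f‖ ≤ (1 + K) * ‖Rs n T f‖) ∧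
    (∀ (m M : ℕ) (f : X), 1 ≤ m →
      ‖∑ s ∈ range M, (Vs T ^ (s + 1)) f‖ ≤ (1 + K + M / m * K) * ‖Rs m T f‖) ∧
    (∀ (m : ℕ) (φ : ℝ) (f : X), 1 ≤ m → |φ| ≤ 1 / m →
      ‖Rs m T f‖ ≤ (2 + 2 * K) * ‖Rs m (rot T φ) f‖)

/-- the Fourier type inequality for slowly varying coefficients -/
def S_four : Prop := ∀ (p q CF : ℝ), p.HolderConjugate q → p ≤ 2 → 0 ≤ CF → ∃ C : ℝ, 0 ≤ C ∧
  ∀ (X : Type u) [NormedAddCommGroup X] [NormedSpace ℂ X] [CompleteSpace X],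
    FourierType X p q CF → ∀ (m J : ℕ) (H : ℕ → ℂ → X) (r : ℕ → ℝ) (B : ℝ), 1 ≤ m → 0 ≤ B →
      (∀ j, 0 ≤ r j) →
      (∀ j < J, DifferentiableOn ℂ (H j) (Metric.ball 0 (1 / (3 * (m : ℝ))))) →
      (∀ j < J, ∀ φ : ℂ, ‖φ‖ ≤ 1 / (4 * (m : ℝ)) → ‖H j φ‖ ≤ B * r j) →
      ∫ φ in (-(1 / (8 * (m : ℝ))))..(1 / (8 * (m : ℝ))),
        ‖∑ j ∈ range J, Complex.exp ((j : ℂ) * (m : ℂ) * (φ : ℂ) * Complex.I) • H j (φ : ℂ)‖ ^ q ≤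
      C / m * B ^ q * (∑ j ∈ range J, r j ^ p) ^ (q / p)

/-- local estimate -/
def S_loc : Prop := ∀ (p q CF K : ℝ), p.HolderConjugate q → p ≤ 2 → 0 ≤ CF → 1 ≤ K →
  ∃ C : ℝ, 0 ≤ C ∧
  ∀ (X : Type u) [NormedAddCommGroup X] [NormedSpace ℂ X] [CompleteSpace X],
    FourierType X p q CF → ∀ (T : X →L[ℂ] X), Good K T → ∀ (m : ℕ) (y : X), 1 ≤ m →
      ∫ φ in (-(1 / (8 * (m : ℝ))))..(1 / (8 * (m : ℝ))),
        ‖Rs (m ^ 2) (rot T φ) (((1 : ℂ) + 1 / (m : ℂ)) • y - T y)‖ ^ q ≤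
      C * (m : ℝ) ^ (q / p - 1) * ‖y‖ ^ q

/-- block estimate -/
def S_blk : Prop := ∀ (p q CF K : ℝ), p.HolderConjugate q → p ≤ 2 → 0 ≤ CF → 1 ≤ K →
  ∃ C : ℝ, 0 ≤ C ∧
  ∀ (X : Type u) [NormedAddCommGroup X] [NormedSpace ℂ X] [CompleteSpace X],
    FourierType X p q CF → ∀ (T : X →L[ℂ] X), Good K T → ∀ (m : ℕ) (f : X), 1 ≤ m →
      ∫ θ in (0 : ℝ)..(2 * π), ‖Rs (m ^ 2) (rot T θ) f‖ ^ q ≤
        C * (m : ℝ) ^ (q / p) * ∫ θ in (0 : ℝ)..(2 * π), ‖Rs m (rot T θ) f‖ ^ q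

/-- real recursion -/
def S_rec2 : Prop := ∀ (C s q : ℝ), 1 ≤ C → 0 < s → 0 < q → ∃ (D : ℝ) (κ : ℕ), 0 ≤ D ∧
  ∀ (F : ℕ → ℝ) (Λ : ℝ), 0 ≤ Λ → (∀ n, 0 ≤ F n) →
    (∀ m n : ℕ, 1 ≤ n → 1 ≤ m → n ≤ m ^ 2 → F n ≤ C * (m : ℝ) ^ s * F m) →
    (∀ n : ℕ, 1 ≤ n → F n ≤ Λ * (n : ℝ) ^ q) →
    ∀ n : ℕ, 1 ≤ n → F n ≤ D * Λ * (n : ℝ) ^ s * (1 + Real.log n) ^ κ

/-- growth from the block estimate -/
def S_gro : Prop := ∀ (p q CF K : ℝ), p.HolderConjugate q → p ≤ 2 → 0 ≤ CF → 1 ≤ K →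
  ∃ (D : ℝ) (κ : ℕ), 0 ≤ D ∧
  ∀ (X : Type u) [NormedAddCommGroup X] [NormedSpace ℂ X] [CompleteSpace X],
    FourierType X p q CF → ∀ (T : X →L[ℂ] X), Good K T → Grow T q (q / p) D κ

/-- Fourier coefficients of powers of the resolvent at 2 -/
def S_ser : Prop := ∀ (X : Type u) [NormedAddCommGroup X] [NormedSpace ℂ X] [CompleteSpace X]
  (K : ℝ) (T : X →L[ℂ] X), Good K T → ∀ N n : ℕ,
    ∫ θ in (0 : ℝ)..(2 * π),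
      Complex.exp (-((n : ℂ) * (θ : ℂ) * Complex.I)) • (Vs (rot T θ)) ^ N =
      ((2 * π * SK.w N n : ℝ) : ℂ) • T ^ n

/-- the adjoint -/
def S_dual : Prop := ∀ (X : Type u) [NormedAddCommGroup X] [NormedSpace ℂ X] [CompleteSpace X]
  (K : ℝ) (T : X →L[ℂ] X), Good K T → Good K (adj T) ∧
    (∀ ζ : ℂ, 1 < ‖ζ‖ → ∀ g : X →L[ℂ] ℂ, resolvent (adj T) ζ g = g.comp (resolvent T ζ))

/-- final combination -/
def S_fin : Prop := ∀ (p q K D : ℝ) (κ : ℕ), p.HolderConjugate q → p ≤ 2 → 1 ≤ K → 0 ≤ D →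
  ∃ (C : ℝ) (κ' : ℕ), ∀ (X : Type u) [NormedAddCommGroup X] [NormedSpace ℂ X] [CompleteSpace X]
    (T : X →L[ℂ] X), Good K T → Grow T q (q / p) D κ → Grow (adj T) q (q / p) D κ →
      ∀ n : ℕ, 1 ≤ n → ‖T ^ n‖ ≤ C * (n : ℝ) ^ (1 / p - 1 / 2) * (1 + Real.log n) ^ κ'

end Pool.Agent.R221.FT
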