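import Mathlib
import Pool.Agent.R221.FT.Defs

/-! FT-BLK: block estimate from the local estimate. -/

namespace Pool.Agent.R221.FT
open Finset MeasureTheory
open scoped Real
universe u

namespace BlkAux
variable {X : Type u} [NormedAddCommGroup X] [NormedSpace ℂ X]

lemma rot_add (T : X →L[ℂ] X) (a b : ℝ) : rot T (a + b) = rot (rot T a) b := by
  simp only [rot, smul_smul, ← Complex.exp_add]
  congr 2
  push_cast; ring

lemma res_apply [CompleteSpace X] (K : ℝ) (T : X →L[ℂ] X) (hT : Good K T) (m : ℕ) (hm : 1 ≤ m)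
    (f : X) : ((1 : ℂ) + 1 / (m : ℂ)) • (Rs m T f) - T (Rs m T f) = f := by
  have hm0 : (0:ℝ) < m := by exact_mod_cast hm
  have hn : 1 < ‖(1 : ℂ) + 1 / (m : ℂ)‖ := by
    have : (1 : ℂ) + 1 / (m : ℂ) = ((1 + 1 / (m : ℝ) : ℝ) : ℂ) := by push_cast; rfl
    rw [this, Complex.norm_real, Real.norm_of_nonneg (by positivity)]
    have : 0 < 1 / (m : ℝ) := by positivity
    linarith
  have hu := (hT _ hn).1
  have h := Ring.mul_inverse_cancel _ hu
  have h2 := congrArg (fun A : X →L[ℂ] X => A f) h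
  simpa [Rs, resolvent, Algebra.algebraMap_eq_smul_one] using h2

end BlkAux

open BlkAux in
theorem blk (hl : S_loc.{u}) (hc : S_cmp.{u}) (hr : S_rot.{u}) : S_blk.{u} := by
  intro p q CF K hpq hp2 hCF hK
  obtain ⟨C, hC, hloc⟩ := hl p q CF K hpq hp2 hCF hK
  have hq0 : 0 < q := hpq.symm.pos
  refine ⟨5 * C * (2 + 2 * K) ^ q, by positivity, ?_⟩
  intro X _ _ _ hF T hT m f hm
  obtain ⟨hgood, hcR, -⟩ := hr X K T hT
  have hm0 : (0:ℝ) < m := by exact_mod_cast hm
  have hm1 : (1:ℝ) ≤ m := by exact_mod_cast hm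
  have hpi := Real.pi_gt_three
  set M : ℕ := ⌈8 * π * m⌉₊ with hM
  have hM1 : 8 * π * m ≤ M := Nat.le_ceil _
  have hM2 : (M:ℝ) < 8 * π * m + 1 := Nat.ceil_lt_add_one (by positivity)
  have hM0 : (0:ℝ) < M := lt_of_lt_of_le (by positivity) hM1
  set δ : ℝ := π / M with hδ
  have hδ0 : 0 < δ := by positivity
  have hδ1 : δ ≤ 1 / (8 * m) := by
    rw [hδ, div_le_div_iff₀ hM0 (by positivity)]; linarith
  have hδ2 : 1 ≤ 5 * m * (2 * δ) := by
    rw [hδ]
    rw [show 5 * (m:ℝ) * (2 * (π / M)) = (10 * π * m) / M by ring, le_div_iff₀ hM0]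
    nlinarith
  have hδ3 : δ ≤ 1 / m := hδ1.trans (one_div_le_one_div_of_le hm0 (by linarith))
  set F : ℝ → ℝ := fun θ => ‖Rs (m ^ 2) (rot T θ) f‖ ^ q with hFdef
  set G : ℝ → ℝ := fun θ => ‖Rs m (rot T θ) f‖ ^ q with hGdef
  have hcont : ∀ n : ℕ, 1 ≤ n → Continuous fun θ : ℝ => ‖Rs n (rot T θ) f‖ ^ q := by
    intro n hn
    apply Continuous.rpow_const
    · exact ((hcR n hn).clm_apply continuous_const).norm
    · intro x; right; exact hq0.le
  have hFc : Continuous F := hcont _ (Nat.one_le_pow _ _ hm)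
  have hGc : Continuous G := hcont _ hm
  have hF0 : ∀ θ, 0 ≤ F θ := fun θ => by simp only [hFdef]; positivity
  have hG0 : ∀ θ, 0 ≤ G θ := fun θ => by simp only [hGdef]; positivity
  have key0 : ∀ t : ℝ, ∫ φ in (-δ)..δ, F (t + φ) ≤
      5 * C * (2 + 2 * K) ^ q * (m:ℝ) ^ (q/p) * ∫ φ in (-δ)..δ, G (t + φ) := by
    intro t
    have hgt := hgood t
    have e1 := res_apply K (rot T t) hgt m hm f
    have h1 := hloc X hF (rot T t) hgt m (Rs m (rot T t) f) hm
    rw [e1] at h1
    simp only [← rot_add] at h1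
    have h2 : ∫ φ in (-δ)..δ, F (t + φ) ≤
        ∫ φ in (-(1 / (8 * (m : ℝ))))..(1 / (8 * (m : ℝ))), F (t + φ) := by
      apply intervalIntegral.integral_mono_interval (by linarith) (by linarith) (by linarith)
      · filter_upwards with φ
        exact hF0 _
      · exact (hFc.comp (continuous_const.add continuous_id)).intervalIntegrable _ _
    have h3 : 2 * δ * G t ≤ (2 + 2 * K) ^ q * ∫ φ in (-δ)..δ, G (t + φ) := by
      have h4 : ∫ φ in (-δ)..δ, G t ≤ ∫ φ in (-δ)..δ, (2 + 2 * K) ^ q * G (t + φ) := by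
        apply intervalIntegral.integral_mono_on (by linarith) (by simp)
        · exact ((hGc.comp (continuous_const.add continuous_id)).const_mul _).intervalIntegrable
            _ _
        · intro φ hφ
          have h5 := (hc X K (rot T t) hK hgt).2.2 m φ f hm
            ((abs_le.2 ⟨hφ.1, hφ.2⟩).trans hδ3)
          rw [← rot_add] at h5
          simp only [hGdef]
          rw [← Real.mul_rpow (by positivity) (norm_nonneg _)]
          exact Real.rpow_le_rpow (norm_nonneg _) h5 hq0.le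
      rw [intervalIntegral.integral_const_mul] at h4
      simp only [intervalIntegral.integral_const, smul_eq_mul] at h4
      calc 2 * δ * G t = (δ - -δ) * G t := by ring
        _ ≤ _ := h4
    have h6 : (m:ℝ) ^ (q / p) = (m:ℝ) ^ (q / p - 1) * m := by
      rw [← Real.rpow_add_one hm0.ne']; congr 1; ring
    have h7 : 0 ≤ ∫ φ in (-δ)..δ, G (t + φ) :=
      intervalIntegral.integral_nonneg (by linarith) fun φ _ => hG0 _
    calc ∫ φ in (-δ)..δ, F (t + φ) ≤ C * (m : ℝ) ^ (q / p - 1) * G t := h2.trans h1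
      _ ≤ C * (m : ℝ) ^ (q / p - 1) * (5 * m * (2 * δ) * G t) := by
          apply mul_le_mul_of_nonneg_left _ (by positivity)
          nlinarith [hG0 t]
      _ = C * (m : ℝ) ^ (q / p - 1) * (5 * m) * (2 * δ * G t) := by ring
      _ ≤ C * (m : ℝ) ^ (q / p - 1) * (5 * m) *
            ((2 + 2 * K) ^ q * ∫ φ in (-δ)..δ, G (t + φ)) :=
          mul_le_mul_of_nonneg_left h3 (by positivity)
      _ = _ := by rw [h6]; ring
  have hshift : ∀ (g : ℝ → ℝ) (k : ℕ),
      ∫ θ in (2 * (k:ℝ) * δ)..(2 * ((k + 1 : ℕ):ℝ) * δ), g θ =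
        ∫ φ in (-δ)..δ, g ((2 * (k:ℝ) + 1) * δ + φ) := by
    intro g k
    rw [intervalIntegral.integral_comp_add_left]
    congr 1
    · ring
    · push_cast; ring
  have hsumF := intervalIntegral.sum_integral_adjacent_intervals (f := F) (μ := volume)
    (a := fun k : ℕ => 2 * (k:ℝ) * δ) (n := M) (fun k _ => hFc.intervalIntegrable _ _)
  have hsumG := intervalIntegral.sum_integral_adjacent_intervals (f := G) (μ := volume)
    (a := fun k : ℕ => 2 * (k:ℝ) * δ) (n := M) (fun k _ => hGc.intervalIntegrable _ _)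
  have e0 : 2 * ((0:ℕ):ℝ) * δ = 0 := by simp
  have e1 : 2 * (M:ℝ) * δ = 2 * π := by rw [hδ]; field_simp
  simp only [e0, e1] at hsumF hsumG
  rw [← hsumF, ← hsumG, mul_sum]
  apply sum_le_sum
  intro k _
  simp only [hshift]
  exact key0 _

end Pool.Agent.R221.FT
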