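import Pool.Agent.R221.FT.Defs

namespace Pool.Agent.R221.FT
open Finset MeasureTheory
open scoped Real
universe u

namespace RotAux

variable {X : Type u} [NormedAddCommGroup X] [NormedSpace ℂ X]

lemma isUnit_rot {T : X →L[ℂ] X} {ζ : ℂ} (θ : ℝ)
    (h : IsUnit (algebraMap ℂ (X →L[ℂ] X) (Complex.exp (-((θ : ℂ) * Complex.I)) * ζ) - T)) :
    IsUnit (algebraMap ℂ (X →L[ℂ] X) ζ - rot T θ) := by
  have h1 : algebraMap ℂ (X →L[ℂ] X) ζ - rot T θ =
      algebraMap ℂ (X →L[ℂ] X) (Complex.exp ((θ : ℂ) * Complex.I)) *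
      (algebraMap ℂ (X →L[ℂ] X) (Complex.exp (-((θ : ℂ) * Complex.I)) * ζ) - T) := by
    rw [mul_sub, ← map_mul, ← mul_assoc, ← Complex.exp_add]
    simp only [add_neg_cancel, Complex.exp_zero, one_mul, rot]
    rw [Algebra.smul_def]
  rw [h1]
  exact ((isUnit_iff_ne_zero.mpr (Complex.exp_ne_zero _)).map (algebraMap ℂ (X →L[ℂ] X))).mul h

lemma resolvent_rot (T : X →L[ℂ] X) (ζ : ℂ) (θ : ℝ) :
    resolvent (rot T θ) ζ = Complex.exp (-((θ : ℂ) * Complex.I)) •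
      resolvent T (Complex.exp (-((θ : ℂ) * Complex.I)) * ζ) := by
  have h := spectrum.units_smul_resolvent (R := ℂ) (A := X →L[ℂ] X)
    (r := Units.mk0 (Complex.exp (-((θ : ℂ) * Complex.I))) (Complex.exp_ne_zero _))
    (s := Complex.exp (-((θ : ℂ) * Complex.I)) * ζ) (a := T)
  have e1 : ((Units.mk0 (Complex.exp (-((θ : ℂ) * Complex.I))) (Complex.exp_ne_zero _))⁻¹ : ℂˣ) •
      T = rot T θ := by
    rw [Units.smul_def, Units.val_inv_eq_inv_val, Units.val_mk0, ← Complex.exp_neg, neg_neg, rot]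
  have e2 : ((Units.mk0 (Complex.exp (-((θ : ℂ) * Complex.I))) (Complex.exp_ne_zero _))⁻¹ : ℂˣ) •
      (Complex.exp (-((θ : ℂ) * Complex.I)) * ζ) = ζ := by
    rw [Units.smul_def, Units.val_inv_eq_inv_val, Units.val_mk0, smul_eq_mul, ← mul_assoc,
      inv_mul_cancel₀ (Complex.exp_ne_zero _), one_mul]
  rw [e1, e2] at h
  rw [← h, Units.smul_def, Units.val_mk0]

lemma norm_e (θ : ℝ) : ‖Complex.exp (-((θ : ℂ) * Complex.I))‖ = 1 := by
  have : -((θ : ℂ) * Complex.I) = ((-θ : ℝ) : ℂ) * Complex.I := by push_cast; ring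
  rw [this, Complex.norm_exp_ofReal_mul_I]

lemma good_rot {K : ℝ} {T : X →L[ℂ] X} (h : Good K T) (θ : ℝ) : Good K (rot T θ) := by
  intro ζ hζ
  have h2 : 1 < ‖Complex.exp (-((θ : ℂ) * Complex.I)) * ζ‖ := by
    rw [norm_mul, norm_e, one_mul]; exact hζ
  obtain ⟨h3, h4⟩ := h _ h2
  refine ⟨isUnit_rot θ h3, fun k hk => ?_⟩
  rw [resolvent_rot, smul_pow, norm_smul, norm_pow, norm_e, one_pow, one_mul]
  have := h4 k hk
  rwa [norm_mul, norm_e, one_mul] at this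

lemma continuous_res [CompleteSpace X] {K : ℝ} {T : X →L[ℂ] X} (h : Good K T) {ζ : ℂ}
    (hζ : 1 < ‖ζ‖) :
    Continuous fun θ : ℝ => resolvent (rot T θ) ζ := by
  rw [continuous_iff_continuousAt]
  intro θ
  have hu := (good_rot h θ ζ hζ).1
  have hc : Continuous fun θ : ℝ => algebraMap ℂ (X →L[ℂ] X) ζ - rot T θ := by
    unfold rot
    fun_prop
  obtain ⟨u, hu⟩ := hu
  have h1 : ContinuousAt Ring.inverse (algebraMap ℂ (X →L[ℂ] X) ζ - rot T θ) := by
    rw [← hu]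
    exact NormedRing.inverse_continuousAt u
  exact ContinuousAt.comp (g := Ring.inverse) h1 hc.continuousAt

lemma norm_rs (m : ℕ) (hm : 1 ≤ m) : ‖(1 : ℂ) + 1 / (m : ℂ)‖ = 1 + 1 / (m : ℝ) := by
  have : (1 : ℂ) + 1 / (m : ℂ) = ((1 + 1 / (m : ℝ) : ℝ) : ℂ) := by push_cast; rfl
  rw [this, Complex.norm_real, Real.norm_eq_abs, abs_of_nonneg (by positivity)]

end RotAux

open RotAux in
theorem rot_ : S_rot.{u} := by
  intro X _ _ _ K T h
  refine ⟨fun θ => good_rot h θ, fun m hm => ?_, ?_⟩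
  · unfold Rs
    refine continuous_res h ?_
    rw [norm_rs m hm]
    have : (0 : ℝ) < 1 / (m : ℝ) := by positivity
    linarith
  · unfold Vs
    refine continuous_res h ?_
    simp

end Pool.Agent.R221.FT
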