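import Pool.Agent.R221.FT.Defs
import Pool.Agent.R221.FT.Rot

namespace Pool.Agent.R221.FT
open Finset MeasureTheory
open scoped Real
universe u

namespace CmpAux

variable {X : Type u} [NormedAddCommGroup X] [NormedSpace ℂ X]

lemma res_mul {T : X →L[ℂ] X} {ζ : ℂ} (h : IsUnit (algebraMap ℂ (X →L[ℂ] X) ζ - T)) (f : X) :
    resolvent T ζ (ζ • f - T f) = f := by
  have h1 : resolvent T ζ * (algebraMap ℂ (X →L[ℂ] X) ζ - T) = 1 := Ring.inverse_mul_cancel _ h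
  have h2 := congrArg (fun A : X →L[ℂ] X => A f) h1
  simpa [Algebra.algebraMap_eq_smul_one] using h2

lemma mul_res {T : X →L[ℂ] X} {ζ : ℂ} (h : IsUnit (algebraMap ℂ (X →L[ℂ] X) ζ - T)) (f : X) :
    ζ • resolvent T ζ f - T (resolvent T ζ f) = f := by
  have h1 : (algebraMap ℂ (X →L[ℂ] X) ζ - T) * resolvent T ζ = 1 := Ring.mul_inverse_cancel _ h
  have h2 := congrArg (fun A : X →L[ℂ] X => A f) h1
  simpa [Algebra.algebraMap_eq_smul_one] using h2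

lemma one_lt_rs (m : ℕ) (hm : 1 ≤ m) : 1 < ‖(1 : ℂ) + 1 / (m : ℂ)‖ := by
  rw [RotAux.norm_rs m hm]
  have : (0 : ℝ) < 1 / (m : ℝ) := by positivity
  linarith

lemma norm_Rs {K : ℝ} {T : X →L[ℂ] X} (h : Good K T) (m : ℕ) (hm : 1 ≤ m) : ‖Rs m T‖ ≤ K * m := by
  have h1 := (h _ (one_lt_rs m hm)).2 1 le_rfl
  rw [pow_one, pow_one, RotAux.norm_rs m hm] at h1
  unfold Rs
  have h2 : K / (1 + 1 / (m : ℝ) - 1) = K * m := by
    have : (m : ℝ) ≠ 0 := by positivity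
    field_simp
    ring
  rwa [h2] at h1

lemma norm_Vs {K : ℝ} {T : X →L[ℂ] X} (hK : 1 ≤ K) (h : Good K T) (k : ℕ) : ‖Vs T ^ k‖ ≤ K := by
  rcases Nat.eq_zero_or_pos k with hk | hk
  · subst hk
    rw [pow_zero]
    exact (ContinuousLinearMap.norm_id_le).trans hK
  · have h1 := (h 2 (by simp)).2 k hk
    have h2 : (‖(2 : ℂ)‖ - 1 : ℝ) = 1 := by norm_num
    rw [h2, one_pow, div_one] at h1
    exact h1

lemma part1 {K : ℝ} {T : X →L[ℂ] X} (hK : 1 ≤ K) (h : Good K T) (m n : ℕ) (f : X)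
    (hm : 1 ≤ m) (hmn : m ≤ n) : ‖Rs m T f‖ ≤ (1 + K) * ‖Rs n T f‖ := by
  have hn : 1 ≤ n := hm.trans hmn
  have um := (h _ (one_lt_rs m hm)).1
  have un := (h _ (one_lt_rs n hn)).1
  set g := Rs n T f with hg
  have e1 : ((1 : ℂ) + 1 / (n : ℂ)) • g - T g = f := mul_res un f
  have e2 : Rs m T (((1 : ℂ) + 1 / (m : ℂ)) • g - T g) = g := res_mul um g
  have e3 : Rs m T f = g - ((1 / (m : ℂ)) - 1 / (n : ℂ)) • Rs m T g := by
    have : ((1 : ℂ) + 1 / (m : ℂ)) • g - T g = f + ((1 / (m : ℂ)) - 1 / (n : ℂ)) • g := by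
      rw [← e1]; module
    rw [this, map_add, map_smul] at e2
    exact eq_sub_of_add_eq e2
  have hc : ‖(1 / (m : ℂ)) - 1 / (n : ℂ)‖ ≤ 1 / (m : ℝ) := by
    have : (1 / (m : ℂ)) - 1 / (n : ℂ) = ((1 / (m : ℝ) - 1 / (n : ℝ) : ℝ) : ℂ) := by push_cast; rfl
    rw [this, Complex.norm_real, Real.norm_eq_abs, abs_of_nonneg]
    · have : (0 : ℝ) ≤ 1 / (n : ℝ) := by positivity
      linarith
    · have : 1 / (n : ℝ) ≤ 1 / (m : ℝ) := by
        apply one_div_le_one_div_of_le (by positivity)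
        exact_mod_cast hmn
      linarith
  have hR : ‖Rs m T g‖ ≤ K * m * ‖g‖ := (Rs m T).le_of_opNorm_le (norm_Rs h m hm) g
  have hm0 : (0 : ℝ) < m := by positivity
  calc ‖Rs m T f‖ = ‖g - ((1 / (m : ℂ)) - 1 / (n : ℂ)) • Rs m T g‖ := by rw [e3]
    _ ≤ ‖g‖ + ‖((1 / (m : ℂ)) - 1 / (n : ℂ)) • Rs m T g‖ := norm_sub_le _ _
    _ ≤ ‖g‖ + (1 / (m : ℝ)) * (K * m * ‖g‖) := by
        rw [norm_smul]
        gcongr
    _ = (1 + K) * ‖g‖ := by field_simp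

lemma part2 {K : ℝ} {T : X →L[ℂ] X} (hK : 1 ≤ K) (h : Good K T) (m M : ℕ) (f : X)
    (hm : 1 ≤ m) : ‖∑ s ∈ range M, (Vs T ^ (s + 1)) f‖ ≤ (1 + K + M / m * K) * ‖Rs m T f‖ := by
  have um := (h _ (one_lt_rs m hm)).1
  have u2 := (h 2 (by simp)).1
  set g := Rs m T f with hg
  have e1 : ((1 : ℂ) + 1 / (m : ℂ)) • g - T g = f := mul_res um f
  have e2 : Vs T ((2 : ℂ) • g - T g) = g := res_mul u2 g
  have e3 : Vs T f = g - ((1 : ℂ) - 1 / (m : ℂ)) • Vs T g := by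
    have : (2 : ℂ) • g - T g = f + ((1 : ℂ) - 1 / (m : ℂ)) • g := by
      rw [← e1]; module
    rw [this, map_add, map_smul] at e2
    exact eq_sub_of_add_eq e2
  have e4 : ∀ s : ℕ, (Vs T ^ (s + 1)) f =
      ((Vs T ^ s) g - (Vs T ^ (s + 1)) g) + (1 / (m : ℂ)) • (Vs T ^ (s + 1)) g := by
    intro s
    have : (Vs T ^ (s + 1)) f = (Vs T ^ s) (Vs T f) := by
      rw [pow_succ]; rfl
    have h' : (Vs T ^ (s + 1)) g = (Vs T ^ s) (Vs T g) := by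
      rw [pow_succ]; rfl
    rw [this, e3, map_sub, map_smul, ← h']
    module
  have hm0 : (0 : ℝ) < m := by positivity
  have hg0 : 0 ≤ ‖g‖ := norm_nonneg _
  have hV : ∀ k, ‖(Vs T ^ k) g‖ ≤ K * ‖g‖ := fun k => (Vs T ^ k).le_of_opNorm_le (norm_Vs hK h k) g
  rw [Finset.sum_congr rfl (fun s _ => e4 s), Finset.sum_add_distrib,
    Finset.sum_range_sub' (fun s => (Vs T ^ s) g) M, ← Finset.smul_sum]
  have hsum : ‖∑ s ∈ range M, (Vs T ^ (s + 1)) g‖ ≤ M * (K * ‖g‖) := by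
    refine (norm_sum_le _ _).trans ?_
    refine (Finset.sum_le_sum (fun s _ => hV (s + 1))).trans ?_
    simp
  calc _ ≤ ‖(Vs T ^ 0) g - (Vs T ^ M) g‖ + ‖(1 / (m : ℂ)) • ∑ s ∈ range M, (Vs T ^ (s + 1)) g‖ :=
        norm_add_le _ _
    _ ≤ (‖g‖ + K * ‖g‖) + (1 / (m : ℝ)) * (M * (K * ‖g‖)) := by
        refine add_le_add ?_ ?_
        · refine (norm_sub_le _ _).trans (add_le_add ?_ (hV M))
          simp
        · rw [norm_smul]
          have : ‖(1 / (m : ℂ))‖ = 1 / (m : ℝ) := by simp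
          rw [this]
          gcongr
    _ = (1 + K + M / m * K) * ‖g‖ := by ring

lemma part3 {K : ℝ} {T : X →L[ℂ] X} (hK : 1 ≤ K) (h : Good K T) (m : ℕ) (φ : ℝ) (f : X)
    (hm : 1 ≤ m) (hφ : |φ| ≤ 1 / m) : ‖Rs m T f‖ ≤ (2 + 2 * K) * ‖Rs m (rot T φ) f‖ := by
  have um := (h _ (one_lt_rs m hm)).1
  have ur := (RotAux.good_rot h φ _ (one_lt_rs m hm)).1
  set g := Rs m (rot T φ) f with hg
  have e1 : ((1 : ℂ) + 1 / (m : ℂ)) • g - rot T φ g = f := mul_res ur f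
  have e2 : Rs m T (((1 : ℂ) + 1 / (m : ℂ)) • g - T g) = g := res_mul um g
  have e1' : f = (((1 : ℂ) + 1 / (m : ℂ)) • g - T g) +
      ((1 : ℂ) - Complex.exp ((φ : ℂ) * Complex.I)) • T g := by
    rw [← e1]
    have : rot T φ g = Complex.exp ((φ : ℂ) * Complex.I) • T g := rfl
    rw [this]; module
  have e3 : Rs m T f = g + ((1 : ℂ) - Complex.exp ((φ : ℂ) * Complex.I)) • Rs m T (T g) := by
    rw [e1', map_add, map_smul, e2]
  have e4 : Rs m T (T g) = ((1 : ℂ) + 1 / (m : ℂ)) • Rs m T g - g := by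
    rw [map_sub, map_smul] at e2
    refine eq_sub_of_add_eq ?_
    rw [add_comm]
    exact (eq_add_of_sub_eq e2).symm
  have hc : ‖(1 : ℂ) - Complex.exp ((φ : ℂ) * Complex.I)‖ ≤ 1 / (m : ℝ) := by
    rw [norm_sub_rev, mul_comm]
    exact (Real.norm_exp_I_mul_ofReal_sub_one_le).trans (by simpa using hφ)
  have hR : ‖Rs m T g‖ ≤ K * m * ‖g‖ := (Rs m T).le_of_opNorm_le (norm_Rs h m hm) g
  have hm0 : (0 : ℝ) < m := by positivity
  have hm1 : (1 : ℝ) ≤ m := by exact_mod_cast hm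
  have hg0 : 0 ≤ ‖g‖ := norm_nonneg _
  have hT : ‖Rs m T (T g)‖ ≤ (K * m + K + 1) * ‖g‖ := by
    rw [e4]
    refine (norm_sub_le _ _).trans ?_
    rw [norm_smul, RotAux.norm_rs m hm]
    calc (1 + 1 / (m : ℝ)) * ‖Rs m T g‖ + ‖g‖ ≤ (1 + 1 / (m : ℝ)) * (K * m * ‖g‖) + ‖g‖ := by
          gcongr
      _ = (K * m + K + 1) * ‖g‖ := by field_simp
  rw [e3]
  calc _ ≤ ‖g‖ + ‖((1 : ℂ) - Complex.exp ((φ : ℂ) * Complex.I)) • Rs m T (T g)‖ := norm_add_le _ _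
    _ ≤ ‖g‖ + (1 / (m : ℝ)) * ((K * m + K + 1) * ‖g‖) := by
        rw [norm_smul]
        gcongr
    _ = (1 + K + (K + 1) / m) * ‖g‖ := by field_simp; ring
    _ ≤ (2 + 2 * K) * ‖g‖ := by
        refine mul_le_mul_of_nonneg_right ?_ hg0
        have : (K + 1) / m ≤ K + 1 := div_le_self (by linarith) hm1
        linarith

end CmpAux

open CmpAux in
theorem cmp : S_cmp.{u} := by
  intro X _ _ _ K T hK h
  exact ⟨fun m n f hm hmn => part1 hK h m n f hm hmn, fun m M f hm => part2 hK h m M f hm,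
    fun m φ f hm hφ => part3 hK h m φ f hm hφ⟩

end Pool.Agent.R221.FT
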