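import Pool.Agent.R221.FT.Defs

/-! The adjoint of a strongly Kreiss bounded operator. -/

namespace Pool.Agent.R221.FT
open Finset MeasureTheory
open scoped Real
universe u

namespace DualAux

lemma good_of {X Y : Type u} [NormedAddCommGroup X] [NormedSpace ℂ X] [NormedAddCommGroup Y]
    [NormedSpace ℂ Y] (φ : (X →L[ℂ] X) → (Y →L[ℂ] Y)) (hmul : ∀ A B, φ (A * B) = φ B * φ A)
    (hone : φ 1 = 1)
    (hsub : ∀ (ζ : ℂ) (A : X →L[ℂ] X), φ (algebraMap ℂ (X →L[ℂ] X) ζ - A) =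
      algebraMap ℂ (Y →L[ℂ] Y) ζ - φ A)
    (hn : ∀ A, ‖φ A‖ ≤ ‖A‖) {K : ℝ} {T : X →L[ℂ] X} (hT : Good K T) :
    Good K (φ T) ∧ ∀ ζ : ℂ, 1 < ‖ζ‖ → resolvent (φ T) ζ = φ (resolvent T ζ) := by
  have hpow : ∀ (A : X →L[ℂ] X) (k : ℕ), (φ A) ^ k = φ (A ^ k) := by
    intro A k
    induction k with
    | zero => rw [pow_zero, pow_zero, hone]
    | succ k ih => rw [pow_succ, ih, ← hmul, ← pow_succ']
  have key : ∀ ζ : ℂ, 1 < ‖ζ‖ → IsUnit (algebraMap ℂ (Y →L[ℂ] Y) ζ - φ T) ∧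
      resolvent (φ T) ζ = φ (resolvent T ζ) := by
    intro ζ hζ
    obtain ⟨hu, -⟩ := hT ζ hζ
    have h1 : (algebraMap ℂ (X →L[ℂ] X) ζ - T) * resolvent T ζ = 1 := by
      rw [resolvent]
      exact Ring.mul_inverse_cancel _ hu
    have h2 : resolvent T ζ * (algebraMap ℂ (X →L[ℂ] X) ζ - T) = 1 := by
      rw [resolvent]
      exact Ring.inverse_mul_cancel _ hu
    have h3 : φ (resolvent T ζ) * (algebraMap ℂ (Y →L[ℂ] Y) ζ - φ T) = 1 := by
      rw [← hsub, ← hmul, h1, hone]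
    have h4 : (algebraMap ℂ (Y →L[ℂ] Y) ζ - φ T) * φ (resolvent T ζ) = 1 := by
      rw [← hsub, ← hmul, h2, hone]
    have hu' : IsUnit (algebraMap ℂ (Y →L[ℂ] Y) ζ - φ T) := ⟨⟨_, _, h4, h3⟩, rfl⟩
    refine ⟨hu', ?_⟩
    rw [resolvent]
    have h5 := Ring.mul_inverse_cancel _ hu'
    calc Ring.inverse (algebraMap ℂ (Y →L[ℂ] Y) ζ - φ T)
        = (φ (resolvent T ζ) * (algebraMap ℂ (Y →L[ℂ] Y) ζ - φ T)) *
            Ring.inverse (algebraMap ℂ (Y →L[ℂ] Y) ζ - φ T) := by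
          rw [h3, one_mul]
      _ = φ (resolvent T ζ) := by rw [mul_assoc, h5, mul_one]
  constructor
  · intro ζ hζ
    obtain ⟨h1, h2⟩ := key ζ hζ
    refine ⟨h1, fun k hk => ?_⟩
    rw [h2, hpow]
    exact (hn _).trans ((hT ζ hζ).2 k hk)
  · exact fun ζ hζ => (key ζ hζ).2

end DualAux

open DualAux in
theorem dual : S_dual := by
  intro X _ _ _ K T hT
  have h := good_of (X := X) (Y := X →L[ℂ] ℂ) adj (fun A B => rfl) rfl (by
    intro ζ A
    ext g x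
    show g ((algebraMap ℂ (X →L[ℂ] X) ζ - A) x) = _
    rw [ContinuousLinearMap.sub_apply, map_sub, Algebra.algebraMap_eq_smul_one,
      Algebra.algebraMap_eq_smul_one]
    show g (ζ • x) - g (A x) = ζ • g x - g (A x)
    rw [map_smul]) (by
    intro A
    refine ContinuousLinearMap.opNorm_le_bound _ (norm_nonneg _) fun g => ?_
    show ‖g.comp A‖ ≤ _
    rw [mul_comm]
    exact ContinuousLinearMap.opNorm_comp_le _ _) hT
  refine ⟨h.1, fun ζ hζ g => ?_⟩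
  rw [h.2 ζ hζ]
  rfl

end Pool.Agent.R221.FT
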