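import Mathlib
import Pool.Agent.R221.FT.Defs

/-! FT-FIN: final combination. -/

namespace Pool.Agent.R221.FT
open Finset MeasureTheory
open scoped Real
universe u

namespace FinAux

lemma w_symm (M n : ℕ) : SK.w (M + 1) n = SK.w (n + 1) M := by
  unfold SK.w
  rw [show n + (M + 1) - 1 = n + M by omega, show M + (n + 1) - 1 = n + M by omega,
    Nat.choose_symm_add, show n + (M + 1) = M + (n + 1) by omega]

lemma wsum (hch : SK.S_cheb) (n σ : ℕ) (h1 : 4 * (n + 1) ≤ σ ^ 2) (h2 : 3 * σ ≤ n + 1) :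
    (σ : ℝ) ≤ ∑ s ∈ range (2 * σ), ∑ t ∈ range (4 * σ),
      SK.w ((n + 1 - 3 * σ) + (s + 1) + (t + 1)) n := by
  have key : ∀ s ∈ range (2 * σ),
      (1/2:ℝ) ≤ ∑ t ∈ range (4*σ), SK.w ((n+1-3*σ)+(s+1)+(t+1)) n := by
    intro s hs
    rw [mem_range] at hs
    have h := hch (n+1) σ (n+1+σ+s) h1 (by omega) (by omega)
    rw [← sum_range_reflect] at h
    refine h.trans (le_of_eq (sum_congr rfl fun t ht => ?_))
    rw [mem_range] at ht
    rw [if_pos (by omega)]
    have e := w_symm ((n+1-3*σ)+(s+1)+t) n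
    rw [show (n+1-3*σ)+(s+1)+(t+1) = (n+1-3*σ)+(s+1)+t+1 by omega, e]
    congr 1
    omega
  have h3 := sum_le_sum key
  rw [sum_const, card_range, nsmul_eq_mul] at h3
  push_cast at h3
  linarith

variable {X : Type u} [NormedAddCommGroup X] [NormedSpace ℂ X]

lemma adj_rot (T : X →L[ℂ] X) (θ : ℝ) : rot (adj T) θ = adj (rot T θ) := by
  ext g x
  simp [rot, adj]

lemma pow_adj (z : X →L[ℂ] X)
    (h : ∀ g : X →L[ℂ] ℂ, Vs (adj z) g = g.comp (Vs z)) (k : ℕ) (g : X →L[ℂ] ℂ) :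
    ((Vs (adj z)) ^ k) g = g.comp ((Vs z) ^ k) := by
  induction k generalizing g with
  | zero => ext x; simp
  | succ k ih =>
    rw [pow_succ, mul_apply_eq_comp, h, ih, pow_succ']
    rfl

lemma elem (q a b : ℝ) (hq : 2 ≤ q) (ha : 0 ≤ a) (hb : 0 ≤ b) :
    a * b ≤ 1 + a ^ q + b ^ q := by
  have h : ∀ c : ℝ, 0 ≤ c → c ^ 2 ≤ 1 + c ^ q := by
    intro c hc
    rcases le_total c 1 with h1 | h1
    · have : c ^ 2 ≤ 1 := pow_le_one₀ hc h1
      have : 0 ≤ c ^ q := Real.rpow_nonneg hc _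
      linarith
    · have : c ^ (2:ℝ) ≤ c ^ q := Real.rpow_le_rpow_of_exponent_le h1 hq
      rw [Real.rpow_two] at this
      linarith
  have h1 := h a ha
  have h2 := h b hb
  have h3 : 0 ≤ a ^ q := Real.rpow_nonneg ha _
  have h4 : 0 ≤ b ^ q := Real.rpow_nonneg hb _
  nlinarith [sq_nonneg (a - b)]

lemma vpow (K : ℝ) (z : X →L[ℂ] X) (hK : 1 ≤ K) (hz : Good K z) (k : ℕ) :
    ‖(Vs z) ^ k‖ ≤ K := by
  rcases Nat.eq_zero_or_pos k with h | h
  · subst h
    rw [pow_zero]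
    exact ContinuousLinearMap.norm_id_le.trans hK
  · have h2 : (1:ℝ) < ‖(2:ℂ)‖ := by norm_num
    have h3 := (hz 2 h2).2 k h
    have e : ‖(2:ℂ)‖ - 1 = 1 := by norm_num
    rw [e, one_pow, div_one] at h3
    exact h3

lemma bound (hch : SK.S_cheb) (hc : S_cmp.{u}) (hr : S_rot.{u}) (hs : S_ser.{u})
    (hd : S_dual.{u}) (X : Type u) [NormedAddCommGroup X] [NormedSpace ℂ X] [CompleteSpace X]
    (T : X →L[ℂ] X) (K q A : ℝ) (hq : 2 ≤ q) (hK : 1 ≤ K) (hA : 0 < A) (hT : Good K T)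
    (σ n : ℕ) (hσ : 1 ≤ σ) (h1 : 4 * (n + 1) ≤ σ ^ 2) (h2 : 3 * σ ≤ n + 1)
    (hu : ∀ g : X →L[ℂ] ℂ,
      ∫ θ in (0:ℝ)..(2 * π), ‖Rs σ (rot (adj T) θ) g‖ ^ q ≤ A * ‖g‖ ^ q)
    (hv : ∀ f : X, ∫ θ in (0:ℝ)..(2 * π), ‖Rs σ (rot T θ) f‖ ^ q ≤ A * ‖f‖ ^ q) :
    σ * ‖T ^ n‖ ≤ 2 * (K * (1 + 5 * K) * (1 + 3 * K)) * A ^ (2 / q) := by
  have hq0 : 0 < q := by linarith
  have hσ0 : (0:ℝ) < σ := by exact_mod_cast hσ
  have hpi := Real.pi_gt_three
  obtain ⟨hg1, hc1, hc2⟩ := hr X K T hT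
  obtain ⟨hgd, -⟩ := hd X K T hT
  obtain ⟨hg3, hc3, -⟩ := hr (X →L[ℂ] ℂ) K (adj T) hgd
  set Nb := n + 1 - 3 * σ with hNb
  -- main estimate
  have main : ∀ (f : X) (g : X →L[ℂ] ℂ), f ≠ 0 → ‖g‖ ≤ 1 →
      σ * ‖g ((T ^ n) f)‖ ≤ 2 * (K * (1 + 5 * K) * (1 + 3 * K)) * A ^ (2 / q) * ‖f‖ := by
    intro f g hf hg
    have hf0 : 0 < ‖f‖ := norm_pos_iff.2 hf
    set α : ℝ := A ^ (1 / q) with hα
    set β : ℝ := A ^ (1 / q) * ‖f‖ with hβ
    have hα0 : 0 < α := by positivity
    have hβ0 : 0 < β := by positivity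
    have hαq : α ^ q = A := by
      rw [hα, ← Real.rpow_mul hA.le, one_div_mul_cancel hq0.ne', Real.rpow_one]
    have hβq : β ^ q = A * ‖f‖ ^ q := by
      rw [hβ, Real.mul_rpow hα0.le hf0.le, hαq]
    set u : ℝ → ℝ := fun θ => ‖Rs σ (rot (adj T) θ) g‖ with hu_def
    set v : ℝ → ℝ := fun θ => ‖Rs σ (rot T θ) f‖ with hv_def
    have huc : Continuous u := ((hc3 σ hσ).clm_apply continuous_const).norm
    have hvc : Continuous v := ((hc1 σ hσ).clm_apply continuous_const).norm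
    have hV : Continuous fun θ : ℝ => Vs (rot T θ) := hc2
    -- the integrand
    set W : ℝ → ℂ := fun θ => Complex.exp (-((n : ℂ) * (θ : ℂ) * Complex.I)) *
      g ((∑ t ∈ range (4 * σ), (Vs (rot T θ)) ^ (t + 1))
        (((Vs (rot T θ)) ^ Nb) (∑ s ∈ range (2 * σ), ((Vs (rot T θ)) ^ (s + 1)) f))) with hW
    have hWi : ∫ θ in (0:ℝ)..(2 * π), W θ = ∑ s ∈ range (2 * σ), ∑ t ∈ range (4 * σ),
        ((2 * π * SK.w (Nb + (s + 1) + (t + 1)) n : ℝ) : ℂ) * g ((T ^ n) f) := by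
      set Φ : (X →L[ℂ] X) →L[ℂ] ℂ := g.comp (ContinuousLinearMap.apply ℂ X f) with hΦ
      have hΦc : ∀ N : ℕ, Continuous fun θ : ℝ =>
          Complex.exp (-((n : ℂ) * (θ : ℂ) * Complex.I)) • (Vs (rot T θ)) ^ N := by
        intro N
        have : Continuous fun θ : ℝ => Complex.exp (-((n : ℂ) * (θ : ℂ) * Complex.I)) := by
          fun_prop
        exact this.smul (hV.pow N)
      have hN : ∀ N : ℕ, ∫ θ in (0:ℝ)..(2 * π), Φ (Complex.exp (-((n : ℂ) * (θ : ℂ) *
          Complex.I)) • (Vs (rot T θ)) ^ N) =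
          ((2 * π * SK.w N n : ℝ) : ℂ) * g ((T ^ n) f) := by
        intro N
        rw [ContinuousLinearMap.intervalIntegral_comp_comm Φ
          ((hΦc N).intervalIntegrable _ _), hs X K T hT N n, map_smul]
        rfl
      set hh : ℕ → ℝ → ℂ := fun N θ => Φ (Complex.exp (-((n : ℂ) * (θ : ℂ) *
          Complex.I)) • (Vs (rot T θ)) ^ N) with hhd
      have hhc : ∀ N, Continuous (hh N) := fun N => Φ.continuous.comp (hΦc N)
      have hN' : ∀ N : ℕ, ∫ θ in (0:ℝ)..(2 * π), hh N θ =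
          ((2 * π * SK.w N n : ℝ) : ℂ) * g ((T ^ n) f) := hN
      have e1 : ∀ s : ℕ, ∑ t ∈ range (4 * σ),
          ((2 * π * SK.w (Nb + (s + 1) + (t + 1)) n : ℝ) : ℂ) * g ((T ^ n) f) =
          ∫ θ in (0:ℝ)..(2 * π), ∑ t ∈ range (4 * σ), hh (Nb + (s + 1) + (t + 1)) θ := by
        intro s
        rw [intervalIntegral.integral_finsetSum
          (fun t _ => (hhc (Nb + (s + 1) + (t + 1))).intervalIntegrable _ _)]
        exact sum_congr rfl fun t _ => (hN' _).symm
      rw [sum_congr rfl fun s _ => e1 s, ← intervalIntegral.integral_finsetSum]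
      · congr 1
        ext θ
        simp only [hW, hhd, hΦ, map_smul, _root_.sum_apply, map_sum, mul_sum,
          smul_eq_mul, ContinuousLinearMap.comp_apply, ContinuousLinearMap.apply_apply]
        refine sum_congr rfl fun s _ => sum_congr rfl fun t _ => ?_
        have e5 : (Vs (rot T θ)) ^ (Nb + (s + 1) + (t + 1)) =
            (Vs (rot T θ)) ^ (t + 1) * (Vs (rot T θ)) ^ Nb * (Vs (rot T θ)) ^ (s + 1) := by
          rw [← pow_add, ← pow_add]; congr 1; ring
        rw [e5]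
        rfl
      · intro s _
        apply Continuous.intervalIntegrable
        apply continuous_finsetSum
        intro t _
        exact hhc _
    have hWb : ∀ θ : ℝ, ‖W θ‖ ≤ (K * (1 + 5 * K) * (1 + 3 * K)) *
        (α * β * (1 + (u θ / α) ^ q + (v θ / β) ^ q)) := by
      intro θ
      have hgz := hg1 θ
      obtain ⟨hgaz, hdz⟩ := hd X K (rot T θ) hgz
      have hVa : ∀ g : X →L[ℂ] ℂ, Vs (adj (rot T θ)) g = g.comp (Vs (rot T θ)) :=
        fun g => hdz 2 (by norm_num) g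
      have hPs : ‖∑ s ∈ range (2 * σ), ((Vs (rot T θ)) ^ (s + 1)) f‖ ≤ (1 + 3 * K) * v θ := by
        have h3 := (hc X K (rot T θ) hK hgz).2.1 σ (2 * σ) f hσ
        refine h3.trans (le_of_eq ?_)
        simp only [hv_def]
        congr 1
        push_cast
        field_simp
        ring
      have hPt : ‖g.comp (∑ t ∈ range (4 * σ), (Vs (rot T θ)) ^ (t + 1))‖ ≤
          (1 + 5 * K) * u θ := by
        have h3 := (hc (X →L[ℂ] ℂ) K (adj (rot T θ)) hK hgaz).2.1 σ (4 * σ) g hσ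
        have e : ∑ t ∈ range (4 * σ), ((Vs (adj (rot T θ))) ^ (t + 1)) g =
            g.comp (∑ t ∈ range (4 * σ), (Vs (rot T θ)) ^ (t + 1)) := by
          rw [ContinuousLinearMap.comp_finsetSum]
          exact sum_congr rfl fun t _ => pow_adj _ hVa _ _
        rw [e] at h3
        refine h3.trans (le_of_eq ?_)
        simp only [hu_def, adj_rot]
        congr 1
        push_cast
        field_simp
        ring
      have hV2 := vpow K (rot T θ) hK hgz Nb
      have hexp : ‖Complex.exp (-((n : ℂ) * (θ : ℂ) * Complex.I))‖ = 1 := by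
        have := Complex.norm_exp_ofReal_mul_I (-((n:ℝ) * θ))
        rw [← this]; congr 1; push_cast; ring_nf
      have hu0 : 0 ≤ u θ := norm_nonneg _
      have hv0 : 0 ≤ v θ := norm_nonneg _
      simp only [hW]
      rw [norm_mul, hexp, one_mul]
      calc ‖g ((∑ t ∈ range (4 * σ), (Vs (rot T θ)) ^ (t + 1))
            (((Vs (rot T θ)) ^ Nb) (∑ s ∈ range (2 * σ), ((Vs (rot T θ)) ^ (s + 1)) f)))‖
          = ‖(g.comp (∑ t ∈ range (4 * σ), (Vs (rot T θ)) ^ (t + 1)))
            (((Vs (rot T θ)) ^ Nb) (∑ s ∈ range (2 * σ), ((Vs (rot T θ)) ^ (s + 1)) f))‖ := rfl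
        _ ≤ ‖g.comp (∑ t ∈ range (4 * σ), (Vs (rot T θ)) ^ (t + 1))‖ *
            ‖((Vs (rot T θ)) ^ Nb) (∑ s ∈ range (2 * σ), ((Vs (rot T θ)) ^ (s + 1)) f)‖ :=
            ContinuousLinearMap.le_opNorm _ _
        _ ≤ ((1 + 5 * K) * u θ) * (K * ((1 + 3 * K) * v θ)) := by
            apply mul_le_mul hPt _ (norm_nonneg _) (by positivity)
            refine (ContinuousLinearMap.le_opNorm _ _).trans ?_
            exact mul_le_mul hV2 hPs (norm_nonneg _) (by linarith)
        _ = (K * (1 + 5 * K) * (1 + 3 * K)) * (α * β * ((u θ / α) * (v θ / β))) := by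
            field_simp
        _ ≤ _ := by
            apply mul_le_mul_of_nonneg_left _ (by positivity)
            apply mul_le_mul_of_nonneg_left _ (by positivity)
            exact elem q _ _ hq (by positivity) (by positivity)
    have hgc : Continuous fun θ => (K * (1 + 5 * K) * (1 + 3 * K)) *
        (α * β * (1 + (u θ / α) ^ q + (v θ / β) ^ q)) := by
      apply Continuous.const_mul
      apply Continuous.const_mul
      apply Continuous.add
      · apply Continuous.add continuous_const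
        exact (huc.div_const _).rpow_const (fun _ => Or.inr hq0.le)
      · exact (hvc.div_const _).rpow_const (fun _ => Or.inr hq0.le)
    have hI : ‖∫ θ in (0:ℝ)..(2 * π), W θ‖ ≤ (K * (1 + 5 * K) * (1 + 3 * K)) *
        (α * β * (2 * π + 1 + 1)) := by
      refine (intervalIntegral.norm_integral_le_of_norm_le (by positivity)
        (Filter.Eventually.of_forall fun θ _ => hWb θ) (hgc.intervalIntegrable _ _)).trans ?_
      rw [intervalIntegral.integral_const_mul, intervalIntegral.integral_const_mul]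
      apply mul_le_mul_of_nonneg_left _ (by positivity)
      apply mul_le_mul_of_nonneg_left _ (by positivity)
      have hcu : Continuous fun θ => (u θ / α) ^ q :=
        (huc.div_const _).rpow_const (fun _ => Or.inr hq0.le)
      have hcv : Continuous fun θ => (v θ / β) ^ q :=
        (hvc.div_const _).rpow_const (fun _ => Or.inr hq0.le)
      have i0 : ∫ θ in (0:ℝ)..(2 * π), (1 + (u θ / α) ^ q + (v θ / β) ^ q) =
          (∫ θ in (0:ℝ)..(2 * π), (1:ℝ)) + (∫ θ in (0:ℝ)..(2 * π), (u θ / α) ^ q) +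
            ∫ θ in (0:ℝ)..(2 * π), (v θ / β) ^ q := by
        rw [intervalIntegral.integral_add, intervalIntegral.integral_add]
        · exact continuous_const.intervalIntegrable _ _
        · exact hcu.intervalIntegrable _ _
        · exact (continuous_const.add hcu).intervalIntegrable _ _
        · exact hcv.intervalIntegrable _ _
      rw [i0]
      have i1 : ∫ θ in (0:ℝ)..(2 * π), (u θ / α) ^ q ≤ 1 := by
        have : ∀ θ, (u θ / α) ^ q = (1 / A) * (u θ) ^ q := by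
          intro θ
          rw [Real.div_rpow (norm_nonneg _) hα0.le, hαq]
          ring
        simp only [this]
        rw [intervalIntegral.integral_const_mul]
        have h3 := hu g
        have h4 : ‖g‖ ^ q ≤ 1 := Real.rpow_le_one (norm_nonneg _) hg hq0.le
        calc 1 / A * ∫ θ in (0:ℝ)..(2 * π), (u θ) ^ q ≤ 1 / A * (A * ‖g‖ ^ q) :=
              mul_le_mul_of_nonneg_left h3 (by positivity)
          _ = ‖g‖ ^ q := by field_simp
          _ ≤ 1 := h4
      have i2 : ∫ θ in (0:ℝ)..(2 * π), (v θ / β) ^ q ≤ 1 := by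
        have : ∀ θ, (v θ / β) ^ q = (1 / (A * ‖f‖ ^ q)) * (v θ) ^ q := by
          intro θ
          rw [Real.div_rpow (norm_nonneg _) hβ0.le, hβq]
          ring
        simp only [this]
        rw [intervalIntegral.integral_const_mul]
        have h3 := hv f
        have h5 : 0 < A * ‖f‖ ^ q := by positivity
        calc 1 / (A * ‖f‖ ^ q) * ∫ θ in (0:ℝ)..(2 * π), (v θ) ^ q ≤
              1 / (A * ‖f‖ ^ q) * (A * ‖f‖ ^ q) :=
              mul_le_mul_of_nonneg_left h3 (by positivity)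
          _ = 1 := by field_simp
      have i3 : ∫ θ in (0:ℝ)..(2 * π), (1:ℝ) = 2 * π := by simp
      rw [i3]
      linarith
    have hw := wsum hch n σ h1 h2
    rw [hWi] at hI
    have e2 : ∑ s ∈ range (2 * σ), ∑ t ∈ range (4 * σ),
        ((2 * π * SK.w (Nb + (s + 1) + (t + 1)) n : ℝ) : ℂ) * g ((T ^ n) f) =
        ((2 * π * ∑ s ∈ range (2 * σ), ∑ t ∈ range (4 * σ),
          SK.w (Nb + (s + 1) + (t + 1)) n : ℝ) : ℂ) * g ((T ^ n) f) := by
      push_cast
      simp only [mul_sum, sum_mul]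
    rw [e2, norm_mul, Complex.norm_real, Real.norm_of_nonneg (by
      apply mul_nonneg (by positivity)
      exact hσ0.le.trans hw)] at hI
    have h5 : 2 * π * σ * ‖g ((T ^ n) f)‖ ≤ (K * (1 + 5 * K) * (1 + 3 * K)) *
        (α * β * (2 * π + 1 + 1)) := by
      refine le_trans ?_ hI
      apply mul_le_mul_of_nonneg_right _ (norm_nonneg _)
      exact mul_le_mul_of_nonneg_left hw (by positivity)
    have e3 : α * β = A ^ (2 / q) * ‖f‖ := by
      rw [hβ, ← mul_assoc, hα, ← Real.rpow_add hA]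
      congr 2
      ring
    rw [e3] at h5
    have h6 : 0 ≤ K * (1 + 5 * K) * (1 + 3 * K) * (A ^ (2 / q) * ‖f‖) := by positivity
    have h7 : 2 * π * (σ * ‖g ((T ^ n) f)‖) ≤
        2 * π * (2 * (K * (1 + 5 * K) * (1 + 3 * K)) * A ^ (2 / q) * ‖f‖) := by
      nlinarith
    exact le_of_mul_le_mul_left h7 (by positivity)
  have h8 : ‖T ^ n‖ ≤ 2 * (K * (1 + 5 * K) * (1 + 3 * K)) * A ^ (2 / q) / σ := by
    apply ContinuousLinearMap.opNorm_le_bound _ (by positivity)
    intro f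
    rcases eq_or_ne f 0 with h | h
    · subst h; simp
    · obtain ⟨g, hg, hg2⟩ := exists_dual_vector'' ℂ ((T ^ n) f)
      have h9 := main f g h hg
      rw [hg2] at h9
      rw [div_mul_eq_mul_div, le_div_iff₀ hσ0]
      have : ‖((‖(T ^ n) f‖ : ℝ) : ℂ)‖ = ‖(T ^ n) f‖ := by simp
      rw [mul_comm]
      simpa using h9
  rw [le_div_iff₀ hσ0] at h8
  linarith

end FinAux

open FinAux in
theorem fin (hch : SK.S_cheb) (hc : S_cmp.{u}) (hr : S_rot.{u}) (hs : S_ser.{u})
    (hd : S_dual.{u}) : S_fin.{u} := by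
  intro p q K D κ hpq hp2 hK hD
  have hp1 : 1 < p := hpq.lt
  have hq1 : 1 < q := hpq.symm.lt
  have hp0 : 0 < p := by linarith
  have hq0 : 0 < q := by linarith
  have hpq' : p⁻¹ + q⁻¹ = 1 := hpq.inv_add_inv_eq_one
  have hp2' : (1:ℝ) / 2 ≤ 1 / p := one_div_le_one_div_of_le hp0 hp2
  have hq2 : 2 ≤ q := by
    have h1 : q⁻¹ ≤ 1 / 2 := by
      rw [one_div p] at hp2'; linarith
    rw [inv_le_comm₀ hq0 (by norm_num)] at h1
    norm_num at h1
    exact h1
  refine ⟨2 * (K * (1 + 5 * K) * (1 + 3 * K)) * ((D + 1) * 6) + 2 ^ 144 * K, κ, ?_⟩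
  intro X _ _ _ T hT hG hGa n hn
  have hn0 : (1:ℝ) ≤ n := by exact_mod_cast hn
  have hlog : 0 ≤ Real.log n := Real.log_nonneg hn0
  have hpow : 1 ≤ (n:ℝ) ^ (1 / p - 1 / 2) := Real.one_le_rpow hn0 (by linarith)
  have hlogp : 1 ≤ (1 + Real.log n) ^ κ := one_le_pow₀ (by linarith)
  have hprod : 1 ≤ (n:ℝ) ^ (1 / p - 1 / 2) * (1 + Real.log n) ^ κ := one_le_mul_of_one_le_of_one_le hpow hlogp
  by_cases hn144 : n < 144
  · have h1 := hs X K T hT 1 n
    have hg1 := (hr X K T hT).1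
    have h2 : ‖∫ θ in (0 : ℝ)..(2 * π),
        Complex.exp (-((n : ℂ) * (θ : ℂ) * Complex.I)) • (Vs (rot T θ)) ^ 1‖ ≤
        K * |2 * π - 0| := by
      apply intervalIntegral.norm_integral_le_of_norm_le_const
      intro θ _
      have hexp : ‖Complex.exp (-((n : ℂ) * (θ : ℂ) * Complex.I))‖ = 1 := by
        have := Complex.norm_exp_ofReal_mul_I (-((n:ℝ) * θ))
        rw [← this]; congr 1; push_cast; ring_nf
      rw [norm_smul, hexp, one_mul]
      exact vpow K _ hK (hg1 θ) 1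
    rw [h1, norm_smul, Complex.norm_real] at h2
    have hw : SK.w 1 n = 1 / 2 ^ (n + 1) := by
      unfold SK.w
      simp
    rw [hw, sub_zero, abs_of_pos (by positivity), Real.norm_of_nonneg (by positivity)] at h2
    have h3 : ‖T ^ n‖ ≤ 2 ^ (n + 1) * K := by
      have h4 : (2 * π) * ((1 / 2 ^ (n + 1)) * ‖T ^ n‖) ≤ (2 * π) * K := by linarith
      have h5 := le_of_mul_le_mul_left h4 (by positivity)
      rw [one_div_mul_eq_div, div_le_iff₀ (by positivity)] at h5
      linarith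
    have h6 : (2:ℝ) ^ (n + 1) ≤ 2 ^ 144 := pow_le_pow_right₀ (by norm_num) (by omega)
    have h7 : (2:ℝ) ^ (n + 1) * K ≤ 2 ^ 144 * K := mul_le_mul_of_nonneg_right h6 (by linarith)
    have h8 : 0 ≤ 2 * (K * (1 + 5 * K) * (1 + 3 * K)) * ((D + 1) * 6) := by positivity
    have h9 : ‖T ^ n‖ ≤ 2 * (K * (1 + 5 * K) * (1 + 3 * K)) * ((D + 1) * 6) + 2 ^ 144 * K := by
      linarith
    rw [mul_assoc]
    exact h9.trans (le_mul_of_one_le_right (by positivity) hprod)
  · rw [not_lt] at hn144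
    set a := Nat.sqrt (n + 1) with ha
    have ha1 : a * a ≤ n + 1 := Nat.sqrt_le _
    have ha2 : n + 1 < (a + 1) * (a + 1) := Nat.lt_succ_sqrt _
    have ha3 : 12 ≤ a := by
      by_contra h
      have : a + 1 ≤ 12 := by omega
      have := Nat.mul_le_mul this this
      omega
    set σ := 2 * (a + 1) with hσd
    have h1 : 4 * (n + 1) ≤ σ ^ 2 := by rw [hσd]; nlinarith
    have h2 : 3 * σ ≤ n + 1 := by rw [hσd]; nlinarith
    have h3 : σ ^ 2 ≤ 36 * n := by rw [hσd]; nlinarith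
    have hσ1 : 1 ≤ σ := by omega
    have hσn : σ ≤ n := by omega
    have hσ0 : (0:ℝ) < σ := by exact_mod_cast hσ1
    have hσ1' : (1:ℝ) ≤ σ := by exact_mod_cast hσ1
    have hlσ : 0 ≤ Real.log σ := Real.log_nonneg hσ1'
    have hlσn : Real.log σ ≤ Real.log n := Real.log_le_log hσ0 (by exact_mod_cast hσn)
    set A : ℝ := (D + 1) * (σ : ℝ) ^ (q / p) * (1 + Real.log σ) ^ κ with hA
    have hA0 : 0 < A := by positivity
    have hAD : D * (σ : ℝ) ^ (q / p) * (1 + Real.log σ) ^ κ ≤ A := by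
      rw [hA]
      gcongr
      linarith
    have hb := bound hch hc hr hs hd X T K q A hq2 hK hA0 hT σ n hσ1 h1 h2
      (fun g => (hGa g σ hσ1).trans (mul_le_mul_of_nonneg_right hAD (by positivity)))
      (fun f => (hG f σ hσ1).trans (mul_le_mul_of_nonneg_right hAD (by positivity)))
    have hA2 : A ^ (2 / q) ≤ (D + 1) * ((σ : ℝ) ^ (2 / p - 1) * σ) * (1 + Real.log n) ^ κ := by
      have h2q : 2 / q ≤ 1 := by rw [div_le_one hq0]; exact hq2
      rw [hA, Real.mul_rpow (by positivity) (by positivity),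
        Real.mul_rpow (by positivity) (by positivity), ← Real.rpow_mul hσ0.le]
      have e1 : q / p * (2 / q) = (2 / p - 1) + 1 := by field_simp; ring
      rw [e1, Real.rpow_add_one hσ0.ne']
      have i1 : (D + 1) ^ (2 / q) ≤ D + 1 := by
        calc (D + 1) ^ (2 / q) ≤ (D + 1) ^ (1:ℝ) :=
              Real.rpow_le_rpow_of_exponent_le (by linarith) h2q
          _ = D + 1 := Real.rpow_one _
      have i2 : ((1 + Real.log σ) ^ κ) ^ (2 / q) ≤ (1 + Real.log n) ^ κ := by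
        calc ((1 + Real.log σ) ^ κ) ^ (2 / q) ≤ ((1 + Real.log σ) ^ κ) ^ (1:ℝ) :=
              Real.rpow_le_rpow_of_exponent_le (one_le_pow₀ (by linarith)) h2q
          _ = (1 + Real.log σ) ^ κ := Real.rpow_one _
          _ ≤ _ := by gcongr
      gcongr
    have hs1 : (σ : ℝ) ^ (2 / p - 1) ≤ 6 * (n:ℝ) ^ (1 / p - 1 / 2) := by
      have e0 : 0 ≤ 2 / p - 1 := by
        have : 2 / p = 2 * (1 / p) := by ring
        linarith
      have e1 : (σ : ℝ) ≤ 6 * (n:ℝ) ^ ((1:ℝ) / 2) := by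
        rw [← Real.sqrt_eq_rpow]
        have h36 : (σ : ℝ) ^ 2 ≤ 36 * n := by exact_mod_cast h3
        have : (σ : ℝ) ≤ Real.sqrt (36 * n) := Real.le_sqrt_of_sq_le h36
        rw [Real.sqrt_mul (by norm_num)] at this
        have h6 : Real.sqrt 36 = 6 := by
          rw [show (36:ℝ) = 6 ^ 2 by norm_num]; exact Real.sqrt_sq (by norm_num)
        rw [h6] at this
        exact this
      calc (σ : ℝ) ^ (2 / p - 1) ≤ (6 * (n:ℝ) ^ ((1:ℝ) / 2)) ^ (2 / p - 1) :=
            Real.rpow_le_rpow hσ0.le e1 e0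
        _ = 6 ^ (2 / p - 1) * (n:ℝ) ^ (1 / p - 1 / 2) := by
            rw [Real.mul_rpow (by norm_num) (by positivity), ← Real.rpow_mul (by positivity)]
            congr 2
            ring
        _ ≤ 6 ^ (1:ℝ) * (n:ℝ) ^ (1 / p - 1 / 2) := by
            apply mul_le_mul_of_nonneg_right _ (by positivity)
            apply Real.rpow_le_rpow_of_exponent_le (by norm_num)
            have : 2 / p ≤ 2 := by rw [div_le_iff₀ hp0]; linarith
            linarith
        _ = _ := by rw [Real.rpow_one]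
    have hfin : σ * ‖T ^ n‖ ≤ σ * (2 * (K * (1 + 5 * K) * (1 + 3 * K)) * ((D + 1) * 6) *
        (n:ℝ) ^ (1 / p - 1 / 2) * (1 + Real.log n) ^ κ) := by
      calc σ * ‖T ^ n‖ ≤ 2 * (K * (1 + 5 * K) * (1 + 3 * K)) * A ^ (2 / q) := hb
        _ ≤ 2 * (K * (1 + 5 * K) * (1 + 3 * K)) *
            ((D + 1) * ((σ : ℝ) ^ (2 / p - 1) * σ) * (1 + Real.log n) ^ κ) :=
            mul_le_mul_of_nonneg_left hA2 (by positivity)
        _ ≤ 2 * (K * (1 + 5 * K) * (1 + 3 * K)) *
            ((D + 1) * ((6 * (n:ℝ) ^ (1 / p - 1 / 2)) * σ) * (1 + Real.log n) ^ κ) := by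
            gcongr
        _ = _ := by ring
    have hfin2 := le_of_mul_le_mul_left hfin hσ0
    refine hfin2.trans ?_
    gcongr
    have : 0 ≤ 2 ^ 144 * K := by positivity
    linarith

end Pool.Agent.R221.FT
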