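import Mathlib
import Pool.Agent.R221.FT.Defs

/-! FT-FOUR: the Fourier type inequality for slowly varying coefficients. -/

namespace Pool.Agent.R221.FT
open Finset MeasureTheory
open scoped Real
universe u

namespace FourAux
variable {X : Type u} [NormedAddCommGroup X] [NormedSpace ℂ X]

lemma weight (q : ℝ) (hq : 1 ≤ q) (n : ℕ) (b : ℕ → ℝ) (hb : ∀ k, 0 ≤ b k) :
    (∑ k ∈ range n, b k) ^ q ≤
      ∑ k ∈ range n, (1 / 2 : ℝ) ^ (k + 1) * ((2 : ℝ) ^ (k + 1) * b k) ^ q := by
  have h := Real.inner_le_weight_mul_Lp_of_nonneg (range n) hq (fun k => (1/2:ℝ)^(k+1))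
    (fun k => (2:ℝ)^(k+1) * b k) (fun k => by positivity)
    (fun k => by have := hb k; positivity)
  have h1 : ∀ k, (1/2:ℝ)^(k+1) * ((2:ℝ)^(k+1) * b k) = b k := by
    intro k
    rw [← mul_assoc, ← mul_pow]; norm_num
  have h2 : (∑ k ∈ range n, (1/2:ℝ)^(k+1)) ≤ 1 := by
    have h3 : ∀ n : ℕ, ∑ k ∈ range n, (1/2:ℝ)^(k+1) = 1 - (1/2:ℝ)^n := by
      intro n
      induction n with
      | zero => simp
      | succ n ih => rw [sum_range_succ, ih]; ring
    rw [h3]
    have : (0:ℝ) < (1/2)^n := by positivity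
    linarith
  simp only [h1] at h
  have hq0 : 0 < q := by linarith
  have h4 : 0 ≤ ∑ k ∈ range n, (1 / 2 : ℝ) ^ (k + 1) * ((2 : ℝ) ^ (k + 1) * b k) ^ q :=
    sum_nonneg fun k _ => by have := hb k; positivity
  have h5 : (∑ k ∈ range n, (1/2:ℝ)^(k+1)) ^ (1 - q⁻¹) ≤ 1 := by
    apply Real.rpow_le_one (sum_nonneg fun k _ => by positivity) h2
    rw [sub_nonneg]; exact inv_le_one_of_one_le₀ hq
  have h6 : ∑ k ∈ range n, b k ≤
      (∑ k ∈ range n, (1 / 2 : ℝ) ^ (k + 1) * ((2 : ℝ) ^ (k + 1) * b k) ^ q) ^ q⁻¹ := by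
    refine h.trans ?_
    calc _ ≤ 1 * (∑ k ∈ range n, (1 / 2 : ℝ) ^ (k + 1) * ((2 : ℝ) ^ (k + 1) * b k) ^ q) ^ q⁻¹ :=
          mul_le_mul_of_nonneg_right h5 (Real.rpow_nonneg h4 _)
      _ = _ := one_mul _
  calc (∑ k ∈ range n, b k) ^ q ≤
      ((∑ k ∈ range n, (1 / 2 : ℝ) ^ (k + 1) * ((2 : ℝ) ^ (k + 1) * b k) ^ q) ^ q⁻¹) ^ q :=
        Real.rpow_le_rpow (sum_nonneg fun k _ => hb k) h6 hq0.le
    _ = _ := Real.rpow_inv_rpow h4 hq0.ne'

lemma per (m J : ℕ) (hm : 1 ≤ m) (q : ℝ) (hq : 0 ≤ q) (x : ℕ → X) :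
    ∫ φ in (-(1 / (8 * (m : ℝ))))..(1 / (8 * (m : ℝ))),
      ‖∑ j ∈ range J, Complex.exp ((j : ℂ) * (m : ℂ) * (φ : ℂ) * Complex.I) • x j‖ ^ q ≤
    1 / m * ∫ t in (0:ℝ)..(2 * π),
      ‖∑ j ∈ range J, Complex.exp ((j : ℂ) * (t : ℂ) * Complex.I) • x j‖ ^ q := by
  set g : ℝ → ℝ := fun t =>
    ‖∑ j ∈ range J, Complex.exp ((j : ℂ) * (t : ℂ) * Complex.I) • x j‖ ^ q with hg
  have hgc : Continuous g := by
    apply Continuous.rpow_const
    · fun_prop
    · intro x; right; exact hq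
  have hgp : Function.Periodic g (2 * π) := by
    intro t
    simp only [hg]
    congr 2
    apply sum_congr rfl
    intro j _
    congr 1
    rw [Complex.exp_eq_exp_iff_exists_int]
    refine ⟨j, ?_⟩
    push_cast; ring
  have hm0 : (0:ℝ) < m := by exact_mod_cast hm
  have h1 : ∀ φ : ℝ, ‖∑ j ∈ range J,
      Complex.exp ((j : ℂ) * (m : ℂ) * (φ : ℂ) * Complex.I) • x j‖ ^ q = g (m * φ) := by
    intro φ
    simp only [hg]
    congr 2
    apply sum_congr rfl; intro j _; congr 2; push_cast; ring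
  simp only [h1]
  rw [intervalIntegral.integral_comp_mul_left _ hm0.ne']
  have e1 : (m : ℝ) * -(1 / (8 * (m : ℝ))) = -(1 / 8) := by field_simp
  have e2 : (m : ℝ) * (1 / (8 * (m : ℝ))) = 1 / 8 := by field_simp
  rw [e1, e2, smul_eq_mul, one_div (m : ℝ)]
  apply mul_le_mul_of_nonneg_left _ (by positivity)
  have hpi := Real.pi_gt_three
  have h2 : ∫ t in (-(1 / 8 : ℝ))..(1 / 8), g t ≤ ∫ t in (-π)..π, g t := by
    apply intervalIntegral.integral_mono_interval (by linarith) (by linarith) (by linarith)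
    · filter_upwards with t
      simp only [hg, Pi.zero_apply]
      positivity
    · exact hgc.intervalIntegrable _ _
  refine h2.trans (le_of_eq ?_)
  have h3 := hgp.intervalIntegral_add_eq (-π) 0
  rw [zero_add] at h3
  rw [← h3]
  congr 1
  ring

lemma aux (d ρ f b : ℝ) (k : ℕ) (hf : f ≠ 0) :
    d ^ k * f⁻¹ * (f * b / ρ ^ k) = (d / ρ) ^ k * b := by
  rw [div_pow]; field_simp

lemma geo (n : ℕ) : ∑ k ∈ range n, (1 / 2 : ℝ) ^ k ≤ 2 := by
  have h3 : ∀ n : ℕ, ∑ k ∈ range n, (1/2:ℝ)^k = 2 - 2 * (1/2:ℝ)^n := by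
    intro n
    induction n with
    | zero => simp
    | succ n ih => rw [sum_range_succ, ih]; ring
  rw [h3]
  have : (0:ℝ) < (1/2)^n := by positivity
  linarith

end FourAux

open FourAux in
theorem four : S_four.{u} := by
  intro p q CF hpq hp2 hCF
  have hp1 : 1 < p := hpq.lt
  have hq1 : 1 < q := hpq.symm.lt
  have hp0 : 0 < p := by linarith
  have hq0 : 0 < q := by linarith
  refine ⟨2 * π * 2 ^ q * CF ^ q, by positivity, ?_⟩
  intro X _ _ _ hF m J H r B hm hB hr hH hHb
  have hm0 : (0:ℝ) < m := by exact_mod_cast hm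
  set δ : ℝ := 1 / (8 * (m : ℝ)) with hδ
  have hδ0 : 0 < δ := by positivity
  -- Taylor coefficients
  set x : ℕ → ℕ → X := fun k j =>
    ((δ : ℂ) ^ k * (k.factorial : ℂ)⁻¹) • iteratedDeriv k (H j) 0 with hx
  have hxb : ∀ k, ∀ j < J, ‖x k j‖ ≤ (1 / 2) ^ k * B * r j := by
    intro k j hj
    have hR : (0:ℝ) < 1 / (4 * (m:ℝ)) := by positivity
    have hsub : Metric.closedBall (0:ℂ) (1 / (4 * (m:ℝ))) ⊆ Metric.ball 0 (1 / (3 * (m : ℝ))) := by
      apply Metric.closedBall_subset_ball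
      apply one_div_lt_one_div_of_lt <;> linarith
    have hd : DiffContOnCl ℂ (H j) (Metric.ball 0 (1 / (4 * (m:ℝ)))) := by
      apply DifferentiableOn.diffContOnCl
      exact (hH j hj).mono ((Metric.closure_ball_subset_closedBall).trans hsub)
    have h := Complex.norm_iteratedDeriv_le_of_forall_mem_sphere_norm_le k hR hd
      (C := B * r j) (fun z hz => hHb j hj z (by
        rw [mem_sphere_zero_iff_norm] at hz; exact hz.le))
    simp only [hx]
    rw [norm_smul, norm_mul, norm_pow, norm_inv, Complex.norm_real, Complex.norm_natCast,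
      Real.norm_of_nonneg hδ0.le]
    calc δ ^ k * (k.factorial : ℝ)⁻¹ * ‖iteratedDeriv k (H j) 0‖ ≤
        δ ^ k * (k.factorial : ℝ)⁻¹ * (k.factorial * (B * r j) / (1 / (4 * (m:ℝ))) ^ k) :=
          mul_le_mul_of_nonneg_left h (by positivity)
      _ = (δ / (1 / (4 * (m:ℝ)))) ^ k * (B * r j) :=
          aux _ _ _ _ _ (by positivity)
      _ = _ := by
          have : δ / (1 / (4 * (m:ℝ))) = 1 / 2 := by
            rw [hδ]; field_simp; norm_num
          rw [this]; ring
  set Y : ℕ → ℝ → X := fun k φ =>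
    ∑ j ∈ range J, Complex.exp ((j : ℂ) * (m : ℂ) * (φ : ℂ) * Complex.I) • x k j with hY
  have hYc : ∀ k, Continuous (Y k) := by intro k; simp only [hY]; fun_prop
  have hYb : ∀ k, ∫ φ in (-δ)..δ, ‖Y k φ‖ ^ q ≤
      2 * π / m * CF ^ q * ((1 / 2) ^ k) ^ q * B ^ q * (∑ j ∈ range J, r j ^ p) ^ (q / p) := by
    intro k
    refine (per m J hm q hq0.le (x k)).trans ?_
    have h := hF J (x k)
    have hS : ∑ j ∈ range J, ‖x k j‖ ^ p ≤ ((1 / 2) ^ k * B) ^ p * ∑ j ∈ range J, r j ^ p := by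
      rw [mul_sum]
      apply sum_le_sum
      intro j hj
      rw [← Real.mul_rpow (by positivity) (hr j)]
      exact Real.rpow_le_rpow (norm_nonneg _) (hxb k j (mem_range.1 hj)) hp0.le
    have hS0 : 0 ≤ ∑ j ∈ range J, r j ^ p := sum_nonneg fun j _ => Real.rpow_nonneg (hr j) _
    have hS1 : (∑ j ∈ range J, ‖x k j‖ ^ p) ^ (1 / p) ≤
        (1 / 2) ^ k * B * (∑ j ∈ range J, r j ^ p) ^ (1 / p) := by
      calc _ ≤ (((1 / 2) ^ k * B) ^ p * ∑ j ∈ range J, r j ^ p) ^ (1 / p) :=
            Real.rpow_le_rpow (sum_nonneg fun j _ => by positivity) hS (by positivity)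
        _ = _ := by
            rw [Real.mul_rpow (by positivity) hS0, ← Real.rpow_mul (by positivity),
              mul_one_div_cancel hp0.ne', Real.rpow_one]
    calc 1 / (m:ℝ) * ∫ t in (0:ℝ)..(2 * π),
          ‖∑ j ∈ range J, Complex.exp ((j : ℂ) * (t : ℂ) * Complex.I) • x k j‖ ^ q
        ≤ 1 / (m:ℝ) * (2 * π * (CF * (∑ j ∈ range J, ‖x k j‖ ^ p) ^ (1 / p)) ^ q) :=
          mul_le_mul_of_nonneg_left h (by positivity)
      _ ≤ 1 / (m:ℝ) * (2 * π *
          (CF * ((1 / 2) ^ k * B * (∑ j ∈ range J, r j ^ p) ^ (1 / p))) ^ q) := by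
          gcongr
      _ = _ := by
          rw [Real.mul_rpow hCF (by positivity), Real.mul_rpow (by positivity) (by positivity),
            Real.mul_rpow (by positivity) hB, ← Real.rpow_mul hS0]
          rw [show 1 / p * q = q / p by ring]
          ring
  -- partial sums
  set S : ℕ → ℝ → X := fun n φ => ∑ k ∈ range n, ((φ / δ : ℝ) : ℂ) ^ k • Y k φ with hS
  have hSb : ∀ n, ∀ φ ∈ Set.uIoc (-δ) δ, ‖S n φ‖ ≤ ∑ k ∈ range n, ‖Y k φ‖ := by
    intro n φ hφ
    rw [Set.uIoc_of_le (by linarith)] at hφ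
    refine (norm_sum_le _ _).trans (sum_le_sum fun k _ => ?_)
    rw [norm_smul, norm_pow, Complex.norm_real, Real.norm_eq_abs]
    have h1 : |φ / δ| ≤ 1 := by
      rw [abs_div, abs_of_pos hδ0, div_le_one hδ0, abs_le]
      exact ⟨hφ.1.le, hφ.2⟩
    calc _ ≤ 1 * ‖Y k φ‖ := mul_le_mul_of_nonneg_right (pow_le_one₀ (abs_nonneg _) h1)
          (norm_nonneg _)
      _ = _ := one_mul _
  have hSi : ∀ n, ∫ φ in (-δ)..δ, ‖S n φ‖ ^ q ≤
      2 * π * 2 ^ q * CF ^ q / m * B ^ q * (∑ j ∈ range J, r j ^ p) ^ (q / p) := by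
    intro n
    have hc1 : Continuous fun φ => ‖S n φ‖ ^ q := by
      apply Continuous.rpow_const
      · simp only [hS]
        fun_prop
      · intro x; right; exact hq0.le
    have hc2 : ∀ k, Continuous fun φ => ‖Y k φ‖ ^ q := fun k =>
      ((hYc k).norm).rpow_const (fun _ => Or.inr hq0.le)
    calc ∫ φ in (-δ)..δ, ‖S n φ‖ ^ q
        ≤ ∫ φ in (-δ)..δ, ∑ k ∈ range n,
            ((1 / 2 : ℝ) ^ (k + 1) * ((2 : ℝ) ^ (k + 1)) ^ q) * ‖Y k φ‖ ^ q := by
          apply intervalIntegral.integral_mono_on_of_le_Ioo (by linarith)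
            (hc1.intervalIntegrable _ _)
          · apply Continuous.intervalIntegrable
            exact continuous_finsetSum _ fun k _ => (hc2 k).const_mul _
          · intro φ hφ
            have h1 : ‖S n φ‖ ≤ ∑ k ∈ range n, ‖Y k φ‖ :=
              hSb n φ (by rw [Set.uIoc_of_le (by linarith)]; exact ⟨hφ.1, hφ.2.le⟩)
            refine (Real.rpow_le_rpow (norm_nonneg _) h1 hq0.le).trans ?_
            refine (weight q hq1.le n (fun k => ‖Y k φ‖) (fun k => norm_nonneg _)).trans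
              (le_of_eq (sum_congr rfl fun k _ => ?_))
            rw [Real.mul_rpow (by positivity) (norm_nonneg _)]
            ring
      _ = ∑ k ∈ range n, ((1 / 2 : ℝ) ^ (k + 1) * ((2 : ℝ) ^ (k + 1)) ^ q) *
            ∫ φ in (-δ)..δ, ‖Y k φ‖ ^ q := by
          rw [intervalIntegral.integral_finsetSum
            (fun k _ => ((hc2 k).const_mul _).intervalIntegrable _ _)]
          exact sum_congr rfl fun k _ => intervalIntegral.integral_const_mul _ _
      _ ≤ ∑ k ∈ range n, ((1 / 2 : ℝ) ^ (k + 1) * ((2 : ℝ) ^ (k + 1)) ^ q) *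
            (2 * π / m * CF ^ q * ((1 / 2) ^ k) ^ q * B ^ q *
              (∑ j ∈ range J, r j ^ p) ^ (q / p)) := by
          apply sum_le_sum fun k _ => ?_
          exact mul_le_mul_of_nonneg_left (hYb k) (by positivity)
      _ = (∑ k ∈ range n, (1 / 2 : ℝ) ^ k) * (1 / 2) *
            (2 * π * 2 ^ q * CF ^ q / m * B ^ q * (∑ j ∈ range J, r j ^ p) ^ (q / p)) := by
          rw [sum_mul, sum_mul]
          refine sum_congr rfl fun k _ => ?_
          have e : ((2 : ℝ) ^ (k + 1)) ^ q * (((1:ℝ) / 2) ^ k) ^ q = 2 ^ q := by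
            rw [← Real.mul_rpow (by positivity) (by positivity)]
            congr 1
            rw [pow_succ, mul_right_comm, ← mul_pow]
            norm_num
          calc _ = ((1 / 2 : ℝ) ^ (k + 1)) * (((2 : ℝ) ^ (k + 1)) ^ q * (((1:ℝ) / 2) ^ k) ^ q) *
                (2 * π / m * CF ^ q * B ^ q * (∑ j ∈ range J, r j ^ p) ^ (q / p)) := by ring
            _ = _ := by rw [e]; ring
      _ ≤ 1 * (2 * π * 2 ^ q * CF ^ q / m * B ^ q * (∑ j ∈ range J, r j ^ p) ^ (q / p)) := by
          have h0 : 0 ≤ ∑ j ∈ range J, r j ^ p := sum_nonneg fun j _ => Real.rpow_nonneg (hr j) _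
          apply mul_le_mul_of_nonneg_right _ (by positivity)
          have := geo n
          linarith
      _ = _ := one_mul _
  have hlim : Filter.Tendsto (fun n => ∫ φ in (-δ)..δ, ‖S n φ‖ ^ q) Filter.atTop
      (nhds (∫ φ in (-δ)..δ, ‖∑ j ∈ range J,
        Complex.exp ((j : ℂ) * (m : ℂ) * (φ : ℂ) * Complex.I) • H j (φ : ℂ)‖ ^ q)) := by
    apply intervalIntegral.tendsto_integral_filter_of_dominated_convergence
      (fun _ => (2 * (B * ∑ j ∈ range J, r j)) ^ q)
    · filter_upwards with n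
      apply Continuous.aestronglyMeasurable
      apply Continuous.rpow_const
      · simp only [hS]
        fun_prop
      · intro x; right; exact hq0.le
    · filter_upwards with n
      filter_upwards with φ hφ
      rw [Real.norm_of_nonneg (by positivity)]
      apply Real.rpow_le_rpow (norm_nonneg _) _ hq0.le
      refine (hSb n φ hφ).trans ?_
      calc ∑ k ∈ range n, ‖Y k φ‖ ≤ ∑ k ∈ range n, (1 / 2) ^ k * (B * ∑ j ∈ range J, r j) := by
            apply sum_le_sum fun k _ => ?_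
            simp only [hY]
            refine (norm_sum_le _ _).trans ?_
            rw [← mul_assoc, mul_sum]
            apply sum_le_sum fun j hj => ?_
            rw [norm_smul]
            have he : ‖Complex.exp ((j : ℂ) * (m : ℂ) * (φ : ℂ) * Complex.I)‖ = 1 := by
              have := Complex.norm_exp_ofReal_mul_I ((j:ℝ) * m * φ)
              rw [← this]; push_cast; rfl
            rw [he, one_mul]
            exact hxb k j (mem_range.1 hj)
        _ = (∑ k ∈ range n, (1 / 2 : ℝ) ^ k) * (B * ∑ j ∈ range J, r j) := by rw [sum_mul]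
        _ ≤ _ := by
            apply mul_le_mul_of_nonneg_right (geo n)
            exact mul_nonneg hB (sum_nonneg fun j _ => hr j)
    · exact intervalIntegrable_const
    · filter_upwards with φ hφ
      apply Filter.Tendsto.rpow_const _ (Or.inr hq0.le)
      apply Filter.Tendsto.norm
      have e : ∀ n, S n φ = ∑ j ∈ range J,
          Complex.exp ((j : ℂ) * (m : ℂ) * (φ : ℂ) * Complex.I) •
            ∑ k ∈ range n, ((k.factorial : ℂ)⁻¹ • ((φ : ℂ) - 0) ^ k •
              iteratedDeriv k (H j) 0) := by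
        intro n
        simp only [hS, hY, smul_sum]
        rw [sum_comm]
        refine sum_congr rfl fun j _ => sum_congr rfl fun k _ => ?_
        rw [smul_comm]
        congr 1
        simp only [hx, smul_smul]
        congr 1
        have : (δ : ℂ) ≠ 0 := by exact_mod_cast hδ0.ne'
        push_cast
        rw [div_pow, sub_zero]
        field_simp
      simp only [e]
      apply tendsto_finsetSum
      intro j hj
      apply Filter.Tendsto.const_smul
      have hmem : (φ : ℂ) ∈ Metric.ball (0:ℂ) (1 / (3 * (m : ℝ))) := by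
        rw [mem_ball_zero_iff, Complex.norm_real, Real.norm_eq_abs]
        rw [Set.uIoc_of_le (by linarith)] at hφ
        have h1 : |φ| ≤ δ := abs_le.2 ⟨hφ.1.le, hφ.2⟩
        refine h1.trans_lt ?_
        rw [hδ]
        apply one_div_lt_one_div_of_lt <;> linarith
      exact (Complex.hasSum_taylorSeries_on_ball (hH j (mem_range.1 hj)) hmem).tendsto_sum_nat
  have hfin := le_of_tendsto' hlim hSi
  refine hfin.trans (le_of_eq ?_)
  ring

end Pool.Agent.R221.FT
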