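import Pool.Agent.R221.FT.Defs

/-! Growth of the resolvent from the block estimate. -/

namespace Pool.Agent.R221.FT
open Finset MeasureTheory
open scoped Real
universe u

theorem gro (hb : S_blk.{u}) (hc : S_cmp.{u}) (hr : S_rot.{u}) (h2 : S_rec2) : S_gro.{u} := by
  intro p q CF K hpq hp2 hCF hK
  obtain ⟨C, hC, hblk⟩ := hb p q CF K hpq hp2 hCF hK
  have hp0 : 0 < p := hpq.pos
  have hq0 : 0 < q := hpq.symm.pos
  have hs : 0 < q / p := div_pos hq0 hp0
  obtain ⟨D, κ, hD, hrec⟩ := h2 (max 1 ((1 + K) ^ q * C)) (q / p) q (le_max_left _ _) hs hq0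
  have hK0 : 0 ≤ K := by linarith
  refine ⟨D * (2 * π * K ^ q), κ, by positivity, ?_⟩
  intro X _ _ _ hF T hT f n hn
  obtain ⟨hr1, hr2, -⟩ := hr X K T hT
  have h2pi : (0 : ℝ) ≤ 2 * π := by positivity
  have hcont : ∀ m : ℕ, 1 ≤ m → Continuous fun θ : ℝ => ‖Rs m (rot T θ) f‖ ^ q := by
    intro m hm
    have h3 : Continuous fun θ : ℝ => Rs m (rot T θ) f := (hr2 m hm).clm_apply continuous_const
    exact h3.norm.rpow_const fun _ => Or.inr hq0.le
  have hmain := hrec (fun n => ∫ θ in (0 : ℝ)..(2 * π), ‖Rs n (rot T θ) f‖ ^ q)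
    (2 * π * K ^ q * ‖f‖ ^ q) (by positivity) ?_ ?_ ?_ n hn
  · refine hmain.trans (le_of_eq ?_)
    ring
  · intro m
    exact intervalIntegral.integral_nonneg h2pi fun θ _ => by positivity
  · intro m n hn hm hnm
    have hm2 : 1 ≤ m ^ 2 := Nat.one_le_pow _ _ hm
    have h4 : ∫ θ in (0 : ℝ)..(2 * π), ‖Rs n (rot T θ) f‖ ^ q ≤
        ∫ θ in (0 : ℝ)..(2 * π), (1 + K) ^ q * ‖Rs (m ^ 2) (rot T θ) f‖ ^ q := by
      refine intervalIntegral.integral_mono_on h2pi ((hcont n hn).intervalIntegrable _ _)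
        (((hcont _ hm2).const_mul _).intervalIntegrable _ _) fun θ _ => ?_
      rw [← Real.mul_rpow (by linarith) (norm_nonneg _)]
      exact Real.rpow_le_rpow (norm_nonneg _)
        ((hc X K (rot T θ) hK (hr1 θ)).1 n (m ^ 2) f hn hnm) hq0.le
    rw [intervalIntegral.integral_const_mul] at h4
    have h5 := hblk X hF T hT m f hm
    have h6 : 0 ≤ ∫ θ in (0 : ℝ)..(2 * π), ‖Rs m (rot T θ) f‖ ^ q :=
      intervalIntegral.integral_nonneg h2pi fun θ _ => by positivity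
    calc ∫ θ in (0 : ℝ)..(2 * π), ‖Rs n (rot T θ) f‖ ^ q
        ≤ (1 + K) ^ q * ∫ θ in (0 : ℝ)..(2 * π), ‖Rs (m ^ 2) (rot T θ) f‖ ^ q := h4
      _ ≤ (1 + K) ^ q * (C * (m : ℝ) ^ (q / p) *
          ∫ θ in (0 : ℝ)..(2 * π), ‖Rs m (rot T θ) f‖ ^ q) :=
          mul_le_mul_of_nonneg_left h5 (by positivity)
      _ = ((1 + K) ^ q * C) * ((m : ℝ) ^ (q / p) *
          ∫ θ in (0 : ℝ)..(2 * π), ‖Rs m (rot T θ) f‖ ^ q) := by ring
      _ ≤ (max 1 ((1 + K) ^ q * C)) * ((m : ℝ) ^ (q / p) *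
          ∫ θ in (0 : ℝ)..(2 * π), ‖Rs m (rot T θ) f‖ ^ q) :=
          mul_le_mul_of_nonneg_right (le_max_right _ _) (by positivity)
      _ = _ := by ring
  · intro n hn
    have hn0 : (0 : ℝ) < n := by exact_mod_cast hn
    have h7 : ∀ θ : ℝ, ‖Rs n (rot T θ) f‖ ≤ K * n * ‖f‖ := by
      intro θ
      have hnorm : ‖(1 : ℂ) + 1 / (n : ℂ)‖ = 1 + 1 / (n : ℝ) := by
        have h8 : (1 : ℂ) + 1 / (n : ℂ) = ((1 + 1 / (n : ℝ) : ℝ) : ℂ) := by push_cast; rfl
        rw [h8, Complex.norm_real, Real.norm_of_nonneg (by positivity)]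
      have h9 := ((hr1 θ) ((1 : ℂ) + 1 / (n : ℂ)) (by
        rw [hnorm]
        have : 0 < 1 / (n : ℝ) := by positivity
        linarith)).2 1 le_rfl
      rw [hnorm, pow_one, pow_one] at h9
      have h10 : K / (1 + 1 / (n : ℝ) - 1) = K * n := by
        field_simp
        ring
      rw [h10] at h9
      exact (ContinuousLinearMap.le_opNorm _ _).trans
        (mul_le_mul_of_nonneg_right h9 (norm_nonneg _))
    have h11 : ∫ θ in (0 : ℝ)..(2 * π), ‖Rs n (rot T θ) f‖ ^ q ≤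
        ∫ _ in (0 : ℝ)..(2 * π), (K * n * ‖f‖) ^ q := by
      refine intervalIntegral.integral_mono_on h2pi ((hcont n hn).intervalIntegrable _ _)
        (continuous_const.intervalIntegrable _ _) fun θ _ => ?_
      exact Real.rpow_le_rpow (norm_nonneg _) (h7 θ) hq0.le
    rw [intervalIntegral.integral_const, smul_eq_mul, sub_zero,
      Real.mul_rpow (by positivity) (norm_nonneg _), Real.mul_rpow hK0 hn0.le] at h11
    refine h11.trans (le_of_eq ?_)
    ring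

end Pool.Agent.R221.FT
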