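import Mathlib
import Pool.Agent.R221.FT.Defs

namespace Pool.Agent.R221.FT.LocAux
open Finset MeasureTheory
open scoped Real
universe u

variable {X : Type u} [NormedAddCommGroup X] [NormedSpace ℂ X]

/-- resolvent at the moving point -/
noncomputable def Wc (T : X →L[ℂ] X) (φ : ℂ) : X →L[ℂ] X :=
  resolvent T (2 * Complex.exp (-(φ * Complex.I)))

noncomputable def Vc (T : X →L[ℂ] X) (φ : ℂ) : X →L[ℂ] X :=
  Complex.exp (-(φ * Complex.I)) • Wc T φ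

noncomputable def Fc (T : X →L[ℂ] X) (a : ℕ) (φ : ℂ) : X →L[ℂ] X :=
  Complex.exp (-((a : ℂ) * φ * Complex.I)) • (Vc T φ) ^ a

theorem norm_exp (φ : ℂ) : ‖Complex.exp (-(φ * Complex.I))‖ = Real.exp φ.im := by
  rw [Complex.norm_exp]
  congr 1
  simp

theorem im_bd (φ : ℂ) {r : ℝ} (h : ‖φ‖ ≤ r) : |φ.im| ≤ r := (Complex.abs_im_le_norm φ).trans h

theorem exp_lb {t : ℝ} (h : |t| ≤ 1 / 3) : 2 / 3 ≤ Real.exp t := by
  have := Real.add_one_le_exp t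
  have := (abs_le.1 h).1
  linarith

theorem two_exp_gt (φ : ℂ) (h : ‖φ‖ ≤ 1 / 3) : 1 < ‖2 * Complex.exp (-(φ * Complex.I))‖ := by
  rw [norm_mul, norm_exp]
  have := exp_lb (im_bd φ h)
  have h2 : ‖(2 : ℂ)‖ = 2 := by simp
  rw [h2]
  linarith

theorem exp_sub_one_sq {t : ℝ} (h : |t| ≤ 1 / 4) : (Real.exp t - 1) ^ 2 ≤ 4 * t ^ 2 := by
  have h1 : |Real.exp t - 1| ≤ 2 * |t| := by
    have := Real.abs_exp_sub_one_le (x := t) (by linarith)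
    simpa using this
  calc (Real.exp t - 1) ^ 2 = |Real.exp t - 1| ^ 2 := (sq_abs _).symm
    _ ≤ (2 * |t|) ^ 2 := pow_le_pow_left₀ (abs_nonneg _) h1 2
    _ = 4 * t ^ 2 := by rw [mul_pow, sq_abs]; ring

theorem Wc_pow {K : ℝ} {T : X →L[ℂ] X} (hT : Good K T) (φ : ℂ) (h : ‖φ‖ ≤ 1 / 3) (k : ℕ)
    (hk : 1 ≤ k) : ‖(Wc T φ) ^ k‖ ≤ K / (2 * Real.exp φ.im - 1) ^ k := by
  have := (hT _ (two_exp_gt φ h)).2 k hk
  rw [norm_mul, norm_exp] at this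
  simpa [Wc] using this

theorem norm_one_le : ‖(1 : X →L[ℂ] X)‖ ≤ 1 := ContinuousLinearMap.norm_id_le

theorem Fc_bd {K : ℝ} (hK : 1 ≤ K) {T : X →L[ℂ] X} (hT : Good K T) (φ : ℂ) (h : ‖φ‖ ≤ 1 / 4)
    (a : ℕ) : ‖Fc T a φ‖ ≤ K * Real.exp (8 * a * ‖φ‖ ^ 2) := by
  rcases Nat.eq_zero_or_pos a with rfl | ha
  · simp only [Fc, pow_zero, Nat.cast_zero, zero_mul, neg_zero, Complex.exp_zero, one_smul,
      mul_zero, Real.exp_zero, mul_one]
    exact norm_one_le.trans hK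
  set t := φ.im with ht
  have htb : |t| ≤ 1 / 4 := im_bd φ h
  have hs := exp_lb (t := t) (by linarith)
  have hW := Wc_pow hT φ (by linarith) a ha
  have h2s : 0 < 2 * Real.exp t - 1 := by linarith
  have e1 : ‖Fc T a φ‖ = (Real.exp t ^ 2) ^ a * ‖(Wc T φ) ^ a‖ := by
    have : Fc T a φ = (Complex.exp (-((a : ℂ) * φ * Complex.I)) *
        Complex.exp (-(φ * Complex.I)) ^ a) • (Wc T φ) ^ a := by
      unfold Fc Vc
      rw [smul_pow, smul_smul]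
    have e2 : ‖Complex.exp (-((a : ℂ) * φ * Complex.I))‖ = Real.exp t ^ a := by
      rw [mul_assoc, ← mul_neg, Complex.exp_nat_mul, norm_pow, norm_exp]
    have e3 : ‖Complex.exp (-(φ * Complex.I))‖ = Real.exp t := norm_exp φ
    rw [this, norm_smul, norm_mul, norm_pow, e2, e3]
    ring
  have e3 : Real.exp t ^ 2 ≤ (2 * Real.exp t - 1) * Real.exp (8 * ‖φ‖ ^ 2) := by
    have a1 := exp_sub_one_sq htb
    have a2 : 8 * ‖φ‖ ^ 2 + 1 ≤ Real.exp (8 * ‖φ‖ ^ 2) := Real.add_one_le_exp _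
    have a3 : t ^ 2 ≤ ‖φ‖ ^ 2 := by
      rw [← sq_abs t]
      exact pow_le_pow_left₀ (abs_nonneg _) (im_bd φ le_rfl) 2
    have a4 : 1 / 3 ≤ 2 * Real.exp t - 1 := by linarith
    have a5 : 3 / 4 ≤ Real.exp t := by
      have := Real.add_one_le_exp t
      have := (abs_le.1 htb).1
      linarith
    have a6 : 1 / 2 ≤ 2 * Real.exp t - 1 := by linarith
    calc Real.exp t ^ 2 = (2 * Real.exp t - 1) + (Real.exp t - 1) ^ 2 := by ring
      _ ≤ (2 * Real.exp t - 1) + 4 * ‖φ‖ ^ 2 := by linarith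
      _ ≤ (2 * Real.exp t - 1) * (8 * ‖φ‖ ^ 2 + 1) := by nlinarith [sq_nonneg ‖φ‖]
      _ ≤ (2 * Real.exp t - 1) * Real.exp (8 * ‖φ‖ ^ 2) := mul_le_mul_of_nonneg_left a2 h2s.le
  rw [e1]
  calc (Real.exp t ^ 2) ^ a * ‖(Wc T φ) ^ a‖
      ≤ ((2 * Real.exp t - 1) * Real.exp (8 * ‖φ‖ ^ 2)) ^ a * (K / (2 * Real.exp t - 1) ^ a) := by
        apply mul_le_mul (pow_le_pow_left₀ (by positivity) e3 a) hW (norm_nonneg _)
        positivity
    _ = K * Real.exp (8 * ‖φ‖ ^ 2) ^ a := by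
        rw [mul_pow]
        field_simp
    _ = K * Real.exp (8 * a * ‖φ‖ ^ 2) := by
        rw [← Real.exp_nat_mul]
        congr 2
        ring

theorem Vc_pow_eq (T : X →L[ℂ] X) (a : ℕ) (φ : ℂ) :
    (Vc T φ) ^ a = Complex.exp ((a : ℂ) * φ * Complex.I) • Fc T a φ := by
  unfold Fc
  rw [smul_smul, ← Complex.exp_add]
  simp

theorem Vc_bd {K : ℝ} (hK : 1 ≤ K) {T : X →L[ℂ] X} (hT : Good K T) (m : ℕ) (hm : 1 ≤ m) (φ : ℂ)
    (h : ‖φ‖ ≤ 1 / (4 * (m : ℝ))) (b : ℕ) (hb : b ≤ m) : ‖(Vc T φ) ^ b‖ ≤ 3 * K := by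
  have hm1 : (1 : ℝ) ≤ m := by exact_mod_cast hm
  have hbm : (b : ℝ) ≤ m := by exact_mod_cast hb
  have hb0 : (0 : ℝ) ≤ b := by positivity
  have h4 : ‖φ‖ ≤ 1 / 4 := h.trans (by
    apply one_div_le_one_div_of_le (by norm_num); linarith)
  rw [Vc_pow_eq, norm_smul]
  have e1 : ‖Complex.exp ((b : ℂ) * φ * Complex.I)‖ ≤ Real.exp (1 / 4) := by
    rw [Complex.norm_exp]
    apply Real.exp_le_exp.2
    have : ((b : ℂ) * φ * Complex.I).re = -(b * φ.im) := by simp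
    rw [this]
    have h1 : |φ.im| ≤ 1 / (4 * (m : ℝ)) := im_bd φ h
    have h2 : -φ.im ≤ 1 / (4 * (m : ℝ)) := (neg_le_abs _).trans h1
    calc -(b * φ.im) = b * (-φ.im) := by ring
      _ ≤ b * (1 / (4 * (m : ℝ))) := mul_le_mul_of_nonneg_left h2 hb0
      _ ≤ m * (1 / (4 * (m : ℝ))) := mul_le_mul_of_nonneg_right hbm (by positivity)
      _ = 1 / 4 := by field_simp
  have e2 := Fc_bd hK hT φ h4 b
  have e3 : 8 * (b : ℝ) * ‖φ‖ ^ 2 ≤ 1 / 2 := by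
    have a1 : ‖φ‖ ^ 2 ≤ (1 / (4 * (m : ℝ))) ^ 2 := pow_le_pow_left₀ (norm_nonneg _) h 2
    calc 8 * (b : ℝ) * ‖φ‖ ^ 2 ≤ 8 * (m : ℝ) * (1 / (4 * (m : ℝ))) ^ 2 := by
          apply mul_le_mul (by linarith) a1 (by positivity) (by positivity)
      _ = 1 / (2 * (m : ℝ)) := by field_simp; norm_num
      _ ≤ 1 / 2 := by apply one_div_le_one_div_of_le (by norm_num); linarith
  have e4 : ‖Fc T b φ‖ ≤ K * Real.exp (1 / 2) :=
    e2.trans (mul_le_mul_of_nonneg_left (Real.exp_le_exp.2 e3) (by linarith))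
  have e5 : Real.exp (1 / 4) * Real.exp (1 / 2) ≤ 3 := by
    rw [← Real.exp_add]
    have : Real.exp (1 / 4 + 1 / 2) ≤ Real.exp 1 := Real.exp_le_exp.2 (by norm_num)
    have := Real.exp_one_lt_d9
    linarith
  calc ‖Complex.exp ((b : ℂ) * φ * Complex.I)‖ * ‖Fc T b φ‖
      ≤ Real.exp (1 / 4) * (K * Real.exp (1 / 2)) := mul_le_mul e1 e4 (norm_nonneg _) (by positivity)
    _ = (Real.exp (1 / 4) * Real.exp (1 / 2)) * K := by ring
    _ ≤ 3 * K := mul_le_mul_of_nonneg_right e5 (by linarith)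

end Pool.Agent.R221.FT.LocAux
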