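import Mathlib
import Pool.Agent.R221.FT.LocA

namespace Pool.Agent.R221.FT.LocAux
open Finset MeasureTheory
open scoped Real
universe u

variable {X : Type u} [NormedAddCommGroup X] [NormedSpace ℂ X]

/-- `(2 e^{-iφ} - T) W = 1` -/
theorem Wc_mul {K : ℝ} {T : X →L[ℂ] X} (hT : Good K T) (φ : ℂ) (h : ‖φ‖ ≤ 1 / 3) :
    (algebraMap ℂ (X →L[ℂ] X) (2 * Complex.exp (-(φ * Complex.I))) - T) * Wc T φ = 1 ∧
    Wc T φ * (algebraMap ℂ (X →L[ℂ] X) (2 * Complex.exp (-(φ * Complex.I))) - T) = 1 := by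
  have hu := (hT _ (two_exp_gt φ h)).1
  exact ⟨Ring.mul_inverse_cancel _ hu, Ring.inverse_mul_cancel _ hu⟩

theorem exp_mul_exp_neg (φ : ℂ) :
    Complex.exp (φ * Complex.I) * Complex.exp (-(φ * Complex.I)) = 1 := by
  rw [← Complex.exp_add]; simp

/-- `V T = e^{-iφ} (2 V - 1)` -/
theorem Vc_T {K : ℝ} {T : X →L[ℂ] X} (hT : Good K T) (φ : ℂ) (h : ‖φ‖ ≤ 1 / 3) :
    Vc T φ * T = Complex.exp (-(φ * Complex.I)) • ((2 : ℂ) • Vc T φ - 1) := by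
  have h2 := (Wc_mul hT φ h).2
  rw [mul_sub, sub_eq_iff_eq_add] at h2
  have h3 : Wc T φ * T = (2 * Complex.exp (-(φ * Complex.I))) • Wc T φ - 1 := by
    have : Wc T φ * (algebraMap ℂ (X →L[ℂ] X)) (2 * Complex.exp (-(φ * Complex.I))) =
        (2 * Complex.exp (-(φ * Complex.I))) • Wc T φ := by
      rw [← Algebra.commutes, Algebra.smul_def]
    rw [← this, h2]
    abel
  unfold Vc
  rw [smul_mul_assoc, h3, smul_sub, smul_sub, smul_smul, smul_smul, smul_smul]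
  congr 2
  ring


/-- decay parameter -/
noncomputable def rho (m : ℕ) : ℝ := 1 - 1 / (m : ℝ) ^ 2

theorem rho_bd (m : ℕ) (hm : 1 ≤ m) : 0 ≤ rho m ∧ rho m ≤ 1 ∧ (1 - rho m) * m ≤ 1 := by
  have hm1 : (1 : ℝ) ≤ m := by exact_mod_cast hm
  have h1 : 1 / (m : ℝ) ^ 2 ≤ 1 := by
    rw [div_le_one (by positivity)]; nlinarith
  have h2 : 0 ≤ 1 / (m : ℝ) ^ 2 := by positivity
  refine ⟨by unfold rho; linarith, by unfold rho; linarith, ?_⟩
  have : (1 - rho m) * m = 1 / (m : ℝ) := by unfold rho; field_simp; ring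
  rw [this, div_le_one (by linarith)]
  exact hm1

theorem abel (v : ℕ → X) (r : ℂ) (M : ℕ) :
    ∑ b ∈ range M, r ^ b • (v b - v (b + 1)) =
      v 0 - r ^ M • v M - (1 - r) • ∑ b ∈ range M, r ^ b • v (b + 1) := by
  induction M with
  | zero => simp
  | succ M ih =>
    rw [Finset.sum_range_succ, ih, Finset.sum_range_succ]
    module

theorem abel_bd (v : ℕ → X) (r : ℝ) (h0 : 0 ≤ r) (h1 : r ≤ 1) (M : ℕ) (B : ℝ) (hB : 0 ≤ B)
    (hv : ∀ b ≤ M, ‖v b‖ ≤ B) (hr : (1 - r) * M ≤ 1) :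
    ‖∑ b ∈ range M, (r : ℂ) ^ b • (v b - v (b + 1))‖ ≤ 3 * B := by
  rw [abel]
  have hrn : ‖(r : ℂ)‖ = r := by simp [abs_of_nonneg h0]
  have e1 : ‖(r : ℂ) ^ M • v M‖ ≤ B := by
    rw [norm_smul, norm_pow, hrn]
    calc r ^ M * ‖v M‖ ≤ 1 * B := mul_le_mul (pow_le_one₀ h0 h1) (hv M le_rfl) (norm_nonneg _)
          zero_le_one
      _ = B := one_mul B
  have e2 : ‖∑ b ∈ range M, (r : ℂ) ^ b • v (b + 1)‖ ≤ M * B := by
    refine (norm_sum_le _ _).trans ?_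
    calc ∑ b ∈ range M, ‖(r : ℂ) ^ b • v (b + 1)‖ ≤ ∑ _b ∈ range M, B := by
          apply Finset.sum_le_sum
          intro b hb
          rw [norm_smul, norm_pow, hrn]
          calc r ^ b * ‖v (b + 1)‖ ≤ 1 * B := mul_le_mul (pow_le_one₀ h0 h1)
                (hv (b + 1) (Finset.mem_range.1 hb)) (norm_nonneg _) zero_le_one
            _ = B := one_mul B
      _ = M * B := by simp
  have e3 : ‖(1 - (r : ℂ)) • ∑ b ∈ range M, (r : ℂ) ^ b • v (b + 1)‖ ≤ B := by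
    rw [norm_smul]
    have : ‖(1 - (r : ℂ))‖ = 1 - r := by
      have : (1 - (r : ℂ)) = ((1 - r : ℝ) : ℂ) := by push_cast; ring
      rw [this, Complex.norm_real, Real.norm_eq_abs, abs_of_nonneg (by linarith)]
    rw [this]
    calc (1 - r) * ‖∑ b ∈ range M, (r : ℂ) ^ b • v (b + 1)‖ ≤ (1 - r) * (M * B) :=
          mul_le_mul_of_nonneg_left e2 (by linarith)
      _ = ((1 - r) * M) * B := by ring
      _ ≤ 1 * B := mul_le_mul_of_nonneg_right hr hB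
      _ = B := one_mul B
  have e0 := hv 0 (Nat.zero_le _)
  calc ‖v 0 - (r : ℂ) ^ M • v M - (1 - (r : ℂ)) • ∑ b ∈ range M, (r : ℂ) ^ b • v (b + 1)‖
      ≤ ‖v 0‖ + ‖(r : ℂ) ^ M • v M‖ +
        ‖(1 - (r : ℂ)) • ∑ b ∈ range M, (r : ℂ) ^ b • v (b + 1)‖ :=
        (norm_sub_le _ _).trans (add_le_add_left (norm_sub_le _ _) _)
    _ ≤ 3 * B := by linarith

/-- the input vector -/
noncomputable def wv (T : X →L[ℂ] X) (m : ℕ) (y : X) : X := ((1 : ℂ) + 1 / (m : ℂ)) • y - T y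

noncomputable def yc (T : X →L[ℂ] X) (m : ℕ) (y : X) (φ : ℂ) : X :=
  ∑ b ∈ range m, ((rho m : ℝ) : ℂ) ^ b • ((Vc T φ) ^ (b + 1)) (wv T m y)

theorem Vc_wv {K : ℝ} {T : X →L[ℂ] X} (hT : Good K T) (φ : ℂ) (h : ‖φ‖ ≤ 1 / 3) (m : ℕ) (y : X)
    (b : ℕ) : ((Vc T φ) ^ (b + 1)) (wv T m y) =
      Complex.exp (-(φ * Complex.I)) • (((Vc T φ) ^ b) y - ((Vc T φ) ^ (b + 1)) y) +
      ((1 : ℂ) + 1 / (m : ℂ) - Complex.exp (-(φ * Complex.I))) • ((Vc T φ) ^ (b + 1)) y := by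
  have h1 : Vc T φ (T y) = Complex.exp (-(φ * Complex.I)) • ((2 : ℂ) • Vc T φ y - y) := by
    have := congrArg (fun A : X →L[ℂ] X => A y) (Vc_T hT φ h)
    simpa using this
  have h2 : ((Vc T φ) ^ (b + 1)) (T y) = Complex.exp (-(φ * Complex.I)) •
      ((2 : ℂ) • ((Vc T φ) ^ (b + 1)) y - ((Vc T φ) ^ b) y) := by
    have e1 : ((Vc T φ) ^ (b + 1)) (T y) = ((Vc T φ) ^ b) (Vc T φ (T y)) := by
      rw [pow_succ]; rfl
    have e2 : ((Vc T φ) ^ (b + 1)) y = ((Vc T φ) ^ b) (Vc T φ y) := by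
      rw [pow_succ]; rfl
    rw [e1, h1, map_smul, map_sub, map_smul, e2]
  unfold wv
  rw [map_sub, map_smul, h2]
  module

theorem yc_bd {K : ℝ} (hK : 1 ≤ K) {T : X →L[ℂ] X} (hT : Good K T) (m : ℕ) (hm : 1 ≤ m) (y : X)
    (φ : ℂ) (h : ‖φ‖ ≤ 1 / (4 * (m : ℝ))) : ‖yc T m y φ‖ ≤ 18 * K * ‖y‖ := by
  have hm1 : (1 : ℝ) ≤ m := by exact_mod_cast hm
  have h4 : ‖φ‖ ≤ 1 / 4 := h.trans (by
    apply one_div_le_one_div_of_le (by norm_num); linarith)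
  obtain ⟨hr0, hr1, hrm⟩ := rho_bd m hm
  set B : ℝ := 3 * K * ‖y‖ with hB
  have hB0 : 0 ≤ B := by positivity
  have hv : ∀ b ≤ m, ‖((Vc T φ) ^ b) y‖ ≤ B := fun b hb =>
    ((Vc T φ ^ b).le_opNorm y).trans
      (mul_le_mul_of_nonneg_right (Vc_bd hK hT m hm φ h b hb) (norm_nonneg _))
  have e : yc T m y φ = Complex.exp (-(φ * Complex.I)) • (∑ b ∈ range m,
      ((rho m : ℝ) : ℂ) ^ b • (((Vc T φ) ^ b) y - ((Vc T φ) ^ (b + 1)) y)) +
      ((1 : ℂ) + 1 / (m : ℂ) - Complex.exp (-(φ * Complex.I))) •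
        ∑ b ∈ range m, ((rho m : ℝ) : ℂ) ^ b • ((Vc T φ) ^ (b + 1)) y := by
    unfold yc
    rw [Finset.smul_sum, Finset.smul_sum, ← Finset.sum_add_distrib]
    apply Finset.sum_congr rfl
    intro b _
    rw [Vc_wv hT φ (by linarith) m y b, smul_add, smul_comm, smul_comm _ (_ - _)]
  rw [e]
  have a1 := abel_bd (fun b => ((Vc T φ) ^ b) y) (rho m) hr0 hr1 m B hB0 hv hrm
  have a2 : ‖∑ b ∈ range m, ((rho m : ℝ) : ℂ) ^ b • ((Vc T φ) ^ (b + 1)) y‖ ≤ m * B := by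
    refine (norm_sum_le _ _).trans ?_
    calc ∑ b ∈ range m, ‖((rho m : ℝ) : ℂ) ^ b • ((Vc T φ) ^ (b + 1)) y‖ ≤ ∑ _b ∈ range m, B := by
          apply Finset.sum_le_sum
          intro b hb
          rw [norm_smul, norm_pow, Complex.norm_real, Real.norm_eq_abs, abs_of_nonneg hr0]
          calc rho m ^ b * ‖((Vc T φ) ^ (b + 1)) y‖ ≤ 1 * B := mul_le_mul (pow_le_one₀ hr0 hr1)
                (hv (b + 1) (Finset.mem_range.1 hb)) (norm_nonneg _) zero_le_one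
            _ = B := one_mul B
      _ = m * B := by simp
  have b0 : ‖Complex.exp (-(φ * Complex.I)) - 1‖ ≤ 2 * ‖φ‖ := by
    have := Complex.norm_exp_sub_one_le (x := -(φ * Complex.I)) (by
      rw [norm_neg, norm_mul, Complex.norm_I, mul_one]; linarith)
    simpa using this
  have b1 : ‖Complex.exp (-(φ * Complex.I))‖ ≤ 3 / 2 := by
    calc ‖Complex.exp (-(φ * Complex.I))‖ = ‖(Complex.exp (-(φ * Complex.I)) - 1) + 1‖ := by
          congr 1; ring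
      _ ≤ ‖Complex.exp (-(φ * Complex.I)) - 1‖ + ‖(1 : ℂ)‖ := norm_add_le _ _
      _ ≤ 3 / 2 := by rw [norm_one]; linarith
  have b2 : ‖(1 : ℂ) + 1 / (m : ℂ) - Complex.exp (-(φ * Complex.I))‖ ≤ 3 / (2 * m) := by
    calc ‖(1 : ℂ) + 1 / (m : ℂ) - Complex.exp (-(φ * Complex.I))‖
        = ‖(1 / (m : ℂ)) - (Complex.exp (-(φ * Complex.I)) - 1)‖ := by congr 1; ring
      _ ≤ ‖(1 / (m : ℂ))‖ + ‖Complex.exp (-(φ * Complex.I)) - 1‖ := norm_sub_le _ _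
      _ ≤ 1 / m + 2 * (1 / (4 * (m : ℝ))) := by
          apply add_le_add
          · simp
          · linarith
      _ = 3 / (2 * m) := by field_simp; norm_num
  calc _ ≤ ‖Complex.exp (-(φ * Complex.I)) • (∑ b ∈ range m,
      ((rho m : ℝ) : ℂ) ^ b • (((Vc T φ) ^ b) y - ((Vc T φ) ^ (b + 1)) y))‖ +
      ‖((1 : ℂ) + 1 / (m : ℂ) - Complex.exp (-(φ * Complex.I))) •
        ∑ b ∈ range m, ((rho m : ℝ) : ℂ) ^ b • ((Vc T φ) ^ (b + 1)) y‖ := norm_add_le _ _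
    _ ≤ 3 / 2 * (3 * B) + 3 / (2 * m) * (m * B) := by
        rw [norm_smul, norm_smul]
        apply add_le_add
        · exact mul_le_mul b1 a1 (norm_nonneg _) (by norm_num)
        · exact mul_le_mul b2 a2 (norm_nonneg _) (by positivity)
    _ = 6 * B := by field_simp; ring
    _ = 18 * K * ‖y‖ := by rw [hB]; ring

end Pool.Agent.R221.FT.LocAux
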