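import Mathlib
import Pool.Agent.R221.FT.LocB

namespace Pool.Agent.R221.FT.LocAux
open Finset MeasureTheory
open scoped Real
universe u

variable {X : Type u} [NormedAddCommGroup X] [NormedSpace ℂ X]

/-- the slowly varying coefficients -/
noncomputable def Hc (T : X →L[ℂ] X) (m : ℕ) (y : X) (j : ℕ) (φ : ℂ) : X :=
  ((rho m : ℝ) : ℂ) ^ (j * m) • (Fc T (j * m) φ) (yc T m y φ)

theorem rho_pow (m : ℕ) (hm : 1 ≤ m) (j : ℕ) :
    rho m ^ (j * m) ≤ Real.exp (-(j : ℝ) / m) := by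
  have hm1 : (1 : ℝ) ≤ m := by exact_mod_cast hm
  obtain ⟨hr0, _, _⟩ := rho_bd m hm
  have h1 : rho m ≤ Real.exp (-(1 / (m : ℝ) ^ 2)) := by
    have := Real.add_one_le_exp (-(1 / (m : ℝ) ^ 2))
    unfold rho; linarith
  calc rho m ^ (j * m) ≤ Real.exp (-(1 / (m : ℝ) ^ 2)) ^ (j * m) := pow_le_pow_left₀ hr0 h1 _
    _ = Real.exp (-(j : ℝ) / m) := by
      rw [← Real.exp_nat_mul]
      congr 1
      push_cast
      field_simp

theorem Hc_bd {K : ℝ} (hK : 1 ≤ K) {T : X →L[ℂ] X} (hT : Good K T) (m : ℕ) (hm : 1 ≤ m) (y : X)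
    (j : ℕ) (φ : ℂ) (h : ‖φ‖ ≤ 1 / (4 * (m : ℝ))) :
    ‖Hc T m y j φ‖ ≤ (18 * K ^ 2 * ‖y‖) * Real.exp (-(j : ℝ) / (2 * m)) := by
  have hm1 : (1 : ℝ) ≤ m := by exact_mod_cast hm
  have h4 : ‖φ‖ ≤ 1 / 4 := h.trans (by
    apply one_div_le_one_div_of_le (by norm_num); linarith)
  obtain ⟨hr0, hr1, hrm⟩ := rho_bd m hm
  have e1 := Fc_bd hK hT φ h4 (j * m)
  have e2 := yc_bd hK hT m hm y φ h
  have e3 : 8 * ((j * m : ℕ) : ℝ) * ‖φ‖ ^ 2 ≤ (j : ℝ) / (2 * m) := by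
    have a1 : ‖φ‖ ^ 2 ≤ (1 / (4 * (m : ℝ))) ^ 2 := pow_le_pow_left₀ (norm_nonneg _) h 2
    calc 8 * ((j * m : ℕ) : ℝ) * ‖φ‖ ^ 2 ≤ 8 * ((j * m : ℕ) : ℝ) * (1 / (4 * (m : ℝ))) ^ 2 :=
          mul_le_mul_of_nonneg_left a1 (by positivity)
      _ = (j : ℝ) / (2 * m) := by push_cast; field_simp; ring
  have e4 : ‖Fc T (j * m) φ‖ ≤ K * Real.exp ((j : ℝ) / (2 * m)) :=
    e1.trans (mul_le_mul_of_nonneg_left (Real.exp_le_exp.2 e3) (by linarith))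
  have e5 := rho_pow m hm j
  unfold Hc
  rw [norm_smul, norm_pow, Complex.norm_real, Real.norm_eq_abs, abs_of_nonneg hr0]
  calc rho m ^ (j * m) * ‖(Fc T (j * m) φ) (yc T m y φ)‖
      ≤ Real.exp (-(j : ℝ) / m) * ((K * Real.exp ((j : ℝ) / (2 * m))) * (18 * K * ‖y‖)) := by
        apply mul_le_mul e5 _ (norm_nonneg _) (Real.exp_pos _).le
        exact ((Fc T (j * m) φ).le_opNorm _).trans
          (mul_le_mul e4 e2 (norm_nonneg _) (by positivity))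
    _ = (18 * K ^ 2 * ‖y‖) * (Real.exp (-(j : ℝ) / m) * Real.exp ((j : ℝ) / (2 * m))) := by ring
    _ = (18 * K ^ 2 * ‖y‖) * Real.exp (-(j : ℝ) / (2 * m)) := by
        rw [← Real.exp_add]
        congr 2
        field_simp
        ring

theorem Wc_diff [CompleteSpace X] {K : ℝ} {T : X →L[ℂ] X} (hT : Good K T) (φ : ℂ)
    (h : ‖φ‖ ≤ 1 / 3) : DifferentiableAt ℂ (Wc T) φ := by
  have hu : (2 * Complex.exp (-(φ * Complex.I))) ∈ resolventSet ℂ T :=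
    (hT _ (two_exp_gt φ h)).1
  have h1 : DifferentiableAt ℂ (resolvent T) (2 * Complex.exp (-(φ * Complex.I))) :=
    (spectrum.hasDerivAt_resolvent_const_left hu).differentiableAt
  have h2 : DifferentiableAt ℂ (fun φ : ℂ => 2 * Complex.exp (-(φ * Complex.I))) φ := by
    fun_prop
  exact DifferentiableAt.comp φ h1 h2

theorem Vc_diff [CompleteSpace X] {K : ℝ} {T : X →L[ℂ] X} (hT : Good K T) (φ : ℂ)
    (h : ‖φ‖ ≤ 1 / 3) (b : ℕ) : DifferentiableAt ℂ (fun φ => (Vc T φ) ^ b) φ := by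
  have h1 : DifferentiableAt ℂ (Vc T) φ := by
    have h0 : DifferentiableAt ℂ (fun φ : ℂ => Complex.exp (-(φ * Complex.I))) φ := by fun_prop
    exact DifferentiableAt.smul h0 (Wc_diff hT φ h)
  exact h1.pow b

theorem Hc_diff [CompleteSpace X] {K : ℝ} {T : X →L[ℂ] X} (hT : Good K T) (m : ℕ) (y : X)
    (j : ℕ) (φ : ℂ) (h : ‖φ‖ ≤ 1 / 3) : DifferentiableAt ℂ (Hc T m y j) φ := by
  unfold Hc
  have h1 : DifferentiableAt ℂ (fun φ => Fc T (j * m) φ) φ := by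
    have h0 : DifferentiableAt ℂ (fun φ : ℂ =>
        Complex.exp (-(((j * m : ℕ) : ℂ) * φ * Complex.I))) φ := by fun_prop
    exact DifferentiableAt.smul h0 (Vc_diff hT φ h _)
  have h2 : DifferentiableAt ℂ (fun φ => yc T m y φ) φ := by
    unfold yc
    apply DifferentiableAt.fun_sum
    intro b _
    exact ((Vc_diff hT φ h (b + 1)).clm_apply (differentiableAt_const _)).const_smul _
  exact (h1.clm_apply h2).const_smul _

theorem rot_eq (T : X →L[ℂ] X) (φ : ℝ) : rot T φ = Complex.exp ((φ : ℂ) * Complex.I) • T := rfl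

/-- `V (2 - e^{iφ} T) = 1`. -/
theorem Vc_two {K : ℝ} {T : X →L[ℂ] X} (hT : Good K T) (φ : ℝ) (h : |φ| ≤ 1 / 3) :
    Vc T (φ : ℂ) * rot T φ = (2 : ℂ) • Vc T (φ : ℂ) - 1 := by
  have h' : ‖(φ : ℂ)‖ ≤ 1 / 3 := by rw [Complex.norm_real]; exact h
  rw [rot_eq, mul_smul_comm, Vc_T hT _ h', smul_smul, exp_mul_exp_neg, one_smul]

theorem Rs_mul {K : ℝ} {T : X →L[ℂ] X} (hT : Good K T) (n : ℕ) (hn : 1 ≤ n) :
    (((1 : ℂ) + 1 / (n : ℂ)) • (1 : X →L[ℂ] X) - T) * Rs n T = 1 := by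
  have hn1 : (0 : ℝ) < n := by exact_mod_cast hn
  have h1 : 1 < ‖(1 : ℂ) + 1 / (n : ℂ)‖ := by
    have : (1 : ℂ) + 1 / (n : ℂ) = ((1 + 1 / (n : ℝ) : ℝ) : ℂ) := by push_cast; ring
    rw [this, Complex.norm_real, Real.norm_eq_abs, abs_of_pos (by positivity)]
    have : 0 < 1 / (n : ℝ) := by positivity
    linarith
  have hu := (hT _ h1).1
  rw [← Algebra.algebraMap_eq_smul_one]
  exact Ring.mul_inverse_cancel _ hu

/-- expansion of the resolvent in powers of `V` -/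
theorem expand {K : ℝ} {T : X →L[ℂ] X} (hT : Good K T) (m : ℕ) (hm : 1 ≤ m) (φ : ℝ)
    (h : |φ| ≤ 1 / 3) (hz : Good K (rot T φ)) (A : ℕ) :
    Rs (m ^ 2) (rot T φ) = ∑ a ∈ range A, ((rho m : ℝ) : ℂ) ^ a • (Vc T (φ : ℂ)) ^ (a + 1) +
      ((rho m : ℝ) : ℂ) ^ A • ((Vc T (φ : ℂ)) ^ A * Rs (m ^ 2) (rot T φ)) := by
  have hR := Rs_mul hz (m ^ 2) (Nat.one_le_pow _ _ hm)
  set R := Rs (m ^ 2) (rot T φ) with hRdef
  set V := Vc T (φ : ℂ) with hV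
  have h2 := Vc_two hT φ h
  have hstep : R = V + ((rho m : ℝ) : ℂ) • (V * R) := by
    have e1 : V * ((((1 : ℂ) + 1 / ((m ^ 2 : ℕ) : ℂ)) • (1 : X →L[ℂ] X) - rot T φ)) =
        1 - ((rho m : ℝ) : ℂ) • V := by
      rw [mul_sub, h2, mul_smul_comm, mul_one]
      have : ((rho m : ℝ) : ℂ) = 1 - 1 / ((m ^ 2 : ℕ) : ℂ) := by unfold rho; push_cast; ring
      rw [this]
      module
    have e2 : V * ((((1 : ℂ) + 1 / ((m ^ 2 : ℕ) : ℂ)) • (1 : X →L[ℂ] X) - rot T φ) * R) = V := by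
      rw [hR, mul_one]
    rw [← mul_assoc, e1, sub_mul, one_mul, smul_mul_assoc] at e2
    rw [← sub_eq_iff_eq_add]
    exact e2
  induction A with
  | zero => simp
  | succ A ih =>
    rw [Finset.sum_range_succ]
    have e3 : V ^ A * R = V ^ (A + 1) + ((rho m : ℝ) : ℂ) • (V ^ (A + 1) * R) := by
      conv_lhs => rw [hstep]
      rw [mul_add, ← pow_succ, mul_smul_comm, ← mul_assoc, ← pow_succ]
    rw [e3] at ih
    conv_lhs => rw [ih]
    rw [smul_add, smul_smul, ← pow_succ]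
    abel

theorem sum_blocks (r : ℂ) (V : X →L[ℂ] X) (m J : ℕ) :
    ∑ a ∈ range (J * m), r ^ a • V ^ (a + 1) =
      ∑ j ∈ range J, (r ^ (j * m) • V ^ (j * m)) * ∑ b ∈ range m, r ^ b • V ^ (b + 1) := by
  induction J with
  | zero => simp
  | succ J ih =>
    rw [Nat.succ_mul, Finset.sum_range_add, ih, Finset.sum_range_succ, Finset.mul_sum]
    congr 1
    apply Finset.sum_congr rfl
    intro b _
    rw [smul_mul_smul_comm, ← pow_add, ← pow_add, add_assoc]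

theorem main_id {K : ℝ} {T : X →L[ℂ] X} (hT : Good K T) (m : ℕ) (hm : 1 ≤ m) (φ : ℝ)
    (h : |φ| ≤ 1 / 3) (hz : Good K (rot T φ)) (y : X) (J : ℕ) :
    Rs (m ^ 2) (rot T φ) (wv T m y) =
      ∑ j ∈ range J, Complex.exp ((j : ℂ) * (m : ℂ) * (φ : ℂ) * Complex.I) • Hc T m y j (φ : ℂ) +
      ((rho m : ℝ) : ℂ) ^ (J * m) • ((Vc T (φ : ℂ)) ^ (J * m)) (Rs (m ^ 2) (rot T φ) (wv T m y)) := by
  have e := congrArg (fun A : X →L[ℂ] X => A (wv T m y)) (expand hT m hm φ h hz (J * m))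
  simp only [add_apply, smul_apply,
    mul_apply_eq_comp] at e
  refine e.trans ?_
  congr 1
  rw [sum_blocks]
  have : (∑ j ∈ range J, (((rho m : ℝ) : ℂ) ^ (j * m) • (Vc T (φ : ℂ)) ^ (j * m)) *
      ∑ b ∈ range m, ((rho m : ℝ) : ℂ) ^ b • (Vc T (φ : ℂ)) ^ (b + 1)) (wv T m y) =
      ∑ j ∈ range J, ((rho m : ℝ) : ℂ) ^ (j * m) • ((Vc T (φ : ℂ)) ^ (j * m)) (yc T m y (φ : ℂ)) := by
    rw [_root_.sum_apply]
    apply Finset.sum_congr rfl
    intro j _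
    rw [mul_apply_eq_comp, _root_.smul_apply]
    congr 2
    unfold yc
    rw [_root_.sum_apply]
    rfl
  rw [this]
  apply Finset.sum_congr rfl
  intro j _
  unfold Hc
  rw [Vc_pow_eq, _root_.smul_apply, smul_comm]
  congr 3
  push_cast
  ring

end Pool.Agent.R221.FT.LocAux
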