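import Mathlib
import Pool.Agent.R221.FT.LocC

namespace Pool.Agent.R221.FT
open Finset MeasureTheory
open scoped Real
universe u

namespace LocAux

theorem add_rpow_le {a b q : ℝ} (ha : 0 ≤ a) (hb : 0 ≤ b) (hq : 0 ≤ q) :
    (a + b) ^ q ≤ 2 ^ q * (a ^ q + b ^ q) := by
  have h1 : a + b ≤ 2 * max a b := by
    linarith [le_max_left a b, le_max_right a b]
  have h2 : (max a b) ^ q ≤ a ^ q + b ^ q := by
    rcases max_cases a b with ⟨h, _⟩ | ⟨h, _⟩ <;> rw [h]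
    · linarith [Real.rpow_nonneg hb q]
    · linarith [Real.rpow_nonneg ha q]
  calc (a + b) ^ q ≤ (2 * max a b) ^ q := Real.rpow_le_rpow (by positivity) h1 hq
    _ = 2 ^ q * (max a b) ^ q := Real.mul_rpow (by norm_num) (le_max_of_le_left ha)
    _ ≤ 2 ^ q * (a ^ q + b ^ q) := mul_le_mul_of_nonneg_left h2 (by positivity)

theorem geom_bd (m : ℕ) (hm : 1 ≤ m) (p : ℝ) (hp : 1 ≤ p) (J : ℕ) :
    ∑ j ∈ range J, (Real.exp (-(j : ℝ) / (2 * m))) ^ p ≤ 3 * m := by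
  have hm1 : (1 : ℝ) ≤ m := by exact_mod_cast hm
  set r : ℝ := Real.exp (-(1 / (2 * (m : ℝ)))) with hr
  have hr0 : 0 < r := Real.exp_pos _
  have h1 : 1 / (3 * (m : ℝ)) ≤ 1 - r := by
    have e1 : 1 + 1 / (2 * (m : ℝ)) ≤ Real.exp (1 / (2 * (m : ℝ))) := by
      have := Real.add_one_le_exp (1 / (2 * (m : ℝ)))
      linarith
    have e2 : r ≤ 1 / (1 + 1 / (2 * (m : ℝ))) := by
      rw [hr, Real.exp_neg, ← one_div]
      exact one_div_le_one_div_of_le (by positivity) e1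
    have e3 : 1 / (1 + 1 / (2 * (m : ℝ))) = 2 * m / (2 * m + 1) := by field_simp
    have e4 : 1 - 2 * (m : ℝ) / (2 * m + 1) = 1 / (2 * m + 1) := by field_simp; ring
    have e5 : 1 / (3 * (m : ℝ)) ≤ 1 / (2 * m + 1) :=
      one_div_le_one_div_of_le (by positivity) (by linarith)
    rw [e3] at e2
    linarith
  have h2 : ∀ j ∈ range J, (Real.exp (-(j : ℝ) / (2 * m))) ^ p ≤ r ^ j := by
    intro j _
    have e1 : Real.exp (-(j : ℝ) / (2 * m)) = r ^ j := by
      rw [hr, ← Real.exp_nat_mul]; congr 1; field_simp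
    rw [e1]
    have e2 : r ^ j ≤ 1 := by
      apply pow_le_one₀ hr0.le
      rw [hr]
      apply Real.exp_le_one_iff.2
      have : 0 ≤ 1 / (2 * (m : ℝ)) := by positivity
      linarith
    calc (r ^ j) ^ p ≤ (r ^ j) ^ (1 : ℝ) :=
          Real.rpow_le_rpow_of_exponent_ge (by positivity) e2 hp
      _ = r ^ j := Real.rpow_one _
  refine (Finset.sum_le_sum h2).trans ?_
  have h3 : (1 - r) * ∑ j ∈ range J, r ^ j ≤ 1 := by
    rw [mul_neg_geom_sum]
    have : 0 ≤ r ^ J := by positivity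
    linarith
  have h4 : 0 ≤ ∑ j ∈ range J, r ^ j := Finset.sum_nonneg fun _ _ => by positivity
  have h5 : 1 / (3 * (m : ℝ)) * ∑ j ∈ range J, r ^ j ≤ 1 :=
    (mul_le_mul_of_nonneg_right h1 h4).trans h3
  rw [one_div, inv_mul_le_iff₀ (by positivity)] at h5
  linarith

end LocAux

open LocAux

theorem loc (h4 : S_four.{u}) (hrot : S_rot.{u}) : S_loc.{u} := by
  intro p q CF K hpq hp2 hCF hK
  obtain ⟨C4, hC4, H4⟩ := h4 p q CF hpq hp2 hCF
  have hp0 : 0 < p := hpq.pos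
  have hq0 : 0 < q := hpq.symm.pos
  have hp1 : 1 < p := hpq.lt
  refine ⟨2 ^ q * (C4 * (18 * K ^ 2) ^ q * 3 ^ (q / p) + 1), by positivity, ?_⟩
  intro X _ _ _ hF T hT m y hm
  have hm1 : (1 : ℝ) ≤ m := by exact_mod_cast hm
  have hm0 : (0 : ℝ) < m := by linarith
  change ∫ φ in (-(1 / (8 * (m : ℝ))))..(1 / (8 * (m : ℝ))),
    ‖Rs (m ^ 2) (rot T φ) (wv T m y)‖ ^ q ≤ _
  by_cases hy : y = 0
  · subst hy
    have : wv T m (0 : X) = 0 := by unfold wv; simp
    simp only [this, map_zero, norm_zero, Real.zero_rpow hq0.ne']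
    simp
  have hy0 : 0 < ‖y‖ := norm_pos_iff.2 hy
  obtain ⟨hrg, hrc, _⟩ := hrot X K T hT
  set δ : ℝ := 1 / (8 * (m : ℝ)) with hδ
  have hδ0 : 0 < δ := by positivity
  -- choose J
  obtain ⟨J, hJ⟩ : ∃ J : ℕ, K * (K * (m : ℝ) ^ 2) * ‖wv T m y‖ * Real.exp (-(J : ℝ) / (2 * m))
      ≤ ‖y‖ := by
    have ht : Filter.Tendsto (fun J : ℕ => K * (K * (m : ℝ) ^ 2) * ‖wv T m y‖ *
        Real.exp (-(J : ℝ) / (2 * m))) Filter.atTop (nhds
          (K * (K * (m : ℝ) ^ 2) * ‖wv T m y‖ * 0)) := by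
      apply Filter.Tendsto.const_mul
      apply Real.tendsto_exp_atBot.comp
      have : (fun J : ℕ => -(J : ℝ) / (2 * m)) = fun J : ℕ => -((J : ℝ) / (2 * m)) := by
        funext J; ring
      rw [this]
      apply Filter.tendsto_neg_atTop_atBot.comp
      exact tendsto_natCast_atTop_atTop.atTop_div_const (by positivity)
    rw [mul_zero] at ht
    exact ((ht.eventually (gt_mem_nhds hy0)).exists).imp fun J h => h.le
  -- pointwise bound
  have hpt : ∀ φ ∈ Set.Icc (-δ) δ, ‖Rs (m ^ 2) (rot T φ) (wv T m y)‖ ^ q ≤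
      2 ^ q * (‖∑ j ∈ range J, Complex.exp ((j : ℂ) * (m : ℂ) * (φ : ℂ) * Complex.I) •
        Hc T m y j (φ : ℂ)‖ ^ q + ‖y‖ ^ q) := by
    intro φ hφ
    have habs : |φ| ≤ δ := abs_le.2 ⟨hφ.1, hφ.2⟩
    have hφ4 : ‖(φ : ℂ)‖ ≤ 1 / (4 * (m : ℝ)) := by
      rw [Complex.norm_real]
      refine habs.trans ?_
      rw [hδ]
      exact one_div_le_one_div_of_le (by positivity) (by linarith)
    have hφ14 : ‖(φ : ℂ)‖ ≤ 1 / 4 := hφ4.trans
      (one_div_le_one_div_of_le (by norm_num) (by linarith))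
    have hφ3 : |φ| ≤ 1 / 3 := by
      rw [Complex.norm_real] at hφ14
      exact hφ14.trans (by norm_num)
    have hid := main_id hT m hm φ hφ3 (hrg φ) y J
    have hrem : ‖((rho m : ℝ) : ℂ) ^ (J * m) • ((Vc T (φ : ℂ)) ^ (J * m))
        (Rs (m ^ 2) (rot T φ) (wv T m y))‖ ≤ ‖y‖ := by
      obtain ⟨hr0, hr1, _⟩ := rho_bd m hm
      have hRn : ‖Rs (m ^ 2) (rot T φ)‖ ≤ K * (m : ℝ) ^ 2 := by
        have hval : ‖(1 : ℂ) + 1 / ((m ^ 2 : ℕ) : ℂ)‖ = 1 + 1 / (m : ℝ) ^ 2 := by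
          have : (1 : ℂ) + 1 / ((m ^ 2 : ℕ) : ℂ) = ((1 + 1 / (m : ℝ) ^ 2 : ℝ) : ℂ) := by
            push_cast; ring
          rw [this, Complex.norm_real, Real.norm_eq_abs, abs_of_pos (by positivity)]
        have h1 : 1 < ‖(1 : ℂ) + 1 / ((m ^ 2 : ℕ) : ℂ)‖ := by
          rw [hval]
          have : 0 < 1 / (m : ℝ) ^ 2 := by positivity
          linarith
        have := (hrg φ _ h1).2 1 le_rfl
        rw [hval, pow_one, pow_one] at this
        have e : K / (1 + 1 / (m : ℝ) ^ 2 - 1) = K * (m : ℝ) ^ 2 := by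
          field_simp
          ring
        rw [e] at this
        exact this
      have hVn : rho m ^ (J * m) * ‖(Vc T (φ : ℂ)) ^ (J * m)‖ ≤
          K * Real.exp (-(J : ℝ) / (2 * m)) := by
        have e1 := Fc_bd hK hT (φ : ℂ) hφ14 (J * m)
        have e3 : 8 * ((J * m : ℕ) : ℝ) * ‖(φ : ℂ)‖ ^ 2 ≤ (J : ℝ) / (2 * m) := by
          have a1 : ‖(φ : ℂ)‖ ^ 2 ≤ (1 / (4 * (m : ℝ))) ^ 2 :=
            pow_le_pow_left₀ (norm_nonneg _) hφ4 2
          calc 8 * ((J * m : ℕ) : ℝ) * ‖(φ : ℂ)‖ ^ 2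
              ≤ 8 * ((J * m : ℕ) : ℝ) * (1 / (4 * (m : ℝ))) ^ 2 :=
                mul_le_mul_of_nonneg_left a1 (by positivity)
            _ = (J : ℝ) / (2 * m) := by push_cast; field_simp; ring
        have e4 : ‖Fc T (J * m) (φ : ℂ)‖ ≤ K * Real.exp ((J : ℝ) / (2 * m)) :=
          e1.trans (mul_le_mul_of_nonneg_left (Real.exp_le_exp.2 e3) (by linarith))
        have e5 := rho_pow m hm J
        have e6 : ‖(Vc T (φ : ℂ)) ^ (J * m)‖ = ‖Fc T (J * m) (φ : ℂ)‖ := by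
          rw [Vc_pow_eq, norm_smul]
          have : ‖Complex.exp (((J * m : ℕ) : ℂ) * (φ : ℂ) * Complex.I)‖ = 1 := by
            have : ((J * m : ℕ) : ℂ) * (φ : ℂ) * Complex.I =
                ((((J * m : ℕ) : ℝ) * φ : ℝ) : ℂ) * Complex.I := by push_cast; ring
            rw [this, Complex.norm_exp_ofReal_mul_I]
          rw [this, one_mul]
        rw [e6]
        calc rho m ^ (J * m) * ‖Fc T (J * m) (φ : ℂ)‖
            ≤ Real.exp (-(J : ℝ) / m) * (K * Real.exp ((J : ℝ) / (2 * m))) :=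
              mul_le_mul e5 e4 (norm_nonneg _) (Real.exp_pos _).le
          _ = K * (Real.exp (-(J : ℝ) / m) * Real.exp ((J : ℝ) / (2 * m))) := by ring
          _ = K * Real.exp (-(J : ℝ) / (2 * m)) := by
              rw [← Real.exp_add]
              congr 2
              field_simp
              ring
      rw [norm_smul, norm_pow, Complex.norm_real, Real.norm_eq_abs, abs_of_nonneg hr0]
      have hG : ‖Rs (m ^ 2) (rot T φ) (wv T m y)‖ ≤ K * (m : ℝ) ^ 2 * ‖wv T m y‖ :=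
        (ContinuousLinearMap.le_opNorm _ _).trans
          (mul_le_mul_of_nonneg_right hRn (norm_nonneg _))
      calc rho m ^ (J * m) * ‖((Vc T (φ : ℂ)) ^ (J * m)) (Rs (m ^ 2) (rot T φ) (wv T m y))‖
          ≤ rho m ^ (J * m) * (‖(Vc T (φ : ℂ)) ^ (J * m)‖ *
              ‖Rs (m ^ 2) (rot T φ) (wv T m y)‖) :=
            mul_le_mul_of_nonneg_left (ContinuousLinearMap.le_opNorm _ _) (by positivity)
        _ = (rho m ^ (J * m) * ‖(Vc T (φ : ℂ)) ^ (J * m)‖) *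
              ‖Rs (m ^ 2) (rot T φ) (wv T m y)‖ := by ring
        _ ≤ (K * Real.exp (-(J : ℝ) / (2 * m))) * (K * (m : ℝ) ^ 2 * ‖wv T m y‖) :=
            mul_le_mul hVn hG (norm_nonneg _) (by positivity)
        _ = K * (K * (m : ℝ) ^ 2) * ‖wv T m y‖ * Real.exp (-(J : ℝ) / (2 * m)) := by ring
        _ ≤ ‖y‖ := hJ
    have hn : ‖Rs (m ^ 2) (rot T φ) (wv T m y)‖ ≤
        ‖∑ j ∈ range J, Complex.exp ((j : ℂ) * (m : ℂ) * (φ : ℂ) * Complex.I) •
          Hc T m y j (φ : ℂ)‖ + ‖y‖ := by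
      calc ‖Rs (m ^ 2) (rot T φ) (wv T m y)‖ = ‖∑ j ∈ range J,
            Complex.exp ((j : ℂ) * (m : ℂ) * (φ : ℂ) * Complex.I) • Hc T m y j (φ : ℂ) +
            ((rho m : ℝ) : ℂ) ^ (J * m) • ((Vc T (φ : ℂ)) ^ (J * m))
              (Rs (m ^ 2) (rot T φ) (wv T m y))‖ := by rw [← hid]
        _ ≤ _ := (norm_add_le _ _).trans (by linarith [hrem])
    exact (Real.rpow_le_rpow (norm_nonneg _) hn hq0.le).trans
      (add_rpow_le (norm_nonneg _) (norm_nonneg _) hq0.le)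
  -- integrability
  have hint1 : IntervalIntegrable (fun φ : ℝ => ‖Rs (m ^ 2) (rot T φ) (wv T m y)‖ ^ q)
      volume (-δ) δ := by
    apply Continuous.intervalIntegrable
    apply Continuous.rpow_const
    · exact ((hrc (m ^ 2) (Nat.one_le_pow _ _ hm)).clm_apply continuous_const).norm
    · intro x; right; exact hq0.le
  have hcont : ContinuousOn (fun φ : ℝ => ‖∑ j ∈ range J,
      Complex.exp ((j : ℂ) * (m : ℂ) * (φ : ℂ) * Complex.I) • Hc T m y j (φ : ℂ)‖ ^ q)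
      (Set.Icc (-δ) δ) := by
    apply ContinuousOn.rpow_const
    · apply ContinuousOn.norm
      apply continuousOn_finsetSum
      intro j _
      apply ContinuousOn.smul
      · fun_prop
      · intro φ hφ
        have habs : |φ| ≤ δ := abs_le.2 ⟨hφ.1, hφ.2⟩
        have hφ3 : ‖(φ : ℂ)‖ ≤ 1 / 3 := by
          rw [Complex.norm_real]
          refine habs.trans ?_
          rw [hδ]
          exact one_div_le_one_div_of_le (by norm_num) (by linarith)
        have := (Hc_diff hT m y j (φ : ℂ) hφ3).continuousAt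
        exact (ContinuousAt.comp (f := fun φ : ℝ => (φ : ℂ)) this
          Complex.continuous_ofReal.continuousAt).continuousWithinAt
    · intro x _; right; exact hq0.le
  have hδle : -δ ≤ δ := by linarith
  have hint2 : IntervalIntegrable (fun φ : ℝ => 2 ^ q * (‖∑ j ∈ range J,
      Complex.exp ((j : ℂ) * (m : ℂ) * (φ : ℂ) * Complex.I) • Hc T m y j (φ : ℂ)‖ ^ q +
        ‖y‖ ^ q)) volume (-δ) δ := by
    apply ContinuousOn.intervalIntegrable
    rw [Set.uIcc_of_le hδle]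
    exact continuousOn_const.mul (hcont.add continuousOn_const)
  have hint3 : IntervalIntegrable (fun φ : ℝ => ‖∑ j ∈ range J,
      Complex.exp ((j : ℂ) * (m : ℂ) * (φ : ℂ) * Complex.I) • Hc T m y j (φ : ℂ)‖ ^ q)
      volume (-δ) δ := by
    apply ContinuousOn.intervalIntegrable
    rw [Set.uIcc_of_le hδle]
    exact hcont
  have hstep := intervalIntegral.integral_mono_on hδle hint1 hint2 hpt
  have hfour := H4 X hF m J (Hc T m y) (fun j => Real.exp (-(j : ℝ) / (2 * m)))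
    (18 * K ^ 2 * ‖y‖) hm (by positivity) (fun j => (Real.exp_pos _).le)
    (by
      intro j _ φ hφ
      rw [Metric.mem_ball, dist_zero_right] at hφ
      apply DifferentiableAt.differentiableWithinAt
      apply Hc_diff hT m y j φ
      refine hφ.le.trans ?_
      exact one_div_le_one_div_of_le (by norm_num) (by linarith))
    (fun j _ φ hφ => Hc_bd hK hT m hm y j φ hφ)
  have hgeom := geom_bd m hm p hp1.le J
  refine hstep.trans ?_
  rw [intervalIntegral.integral_const_mul, intervalIntegral.integral_add hint3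
    intervalIntegrable_const, intervalIntegral.integral_const]
  have hqp : 0 ≤ q / p := by positivity
  have e1 : (∑ j ∈ range J, (Real.exp (-(j : ℝ) / (2 * m))) ^ p) ^ (q / p) ≤
      3 ^ (q / p) * (m : ℝ) ^ (q / p) := by
    rw [← Real.mul_rpow (by norm_num) hm0.le]
    exact Real.rpow_le_rpow (Finset.sum_nonneg fun _ _ => by positivity) hgeom hqp
  have e2 : (m : ℝ) ^ (q / p - 1) = (m : ℝ) ^ (q / p) / m := by
    rw [Real.rpow_sub hm0, Real.rpow_one]
  have e3 : 1 ≤ (m : ℝ) ^ (q / p) := Real.one_le_rpow hm1 hqp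
  have e4 : (18 * K ^ 2 * ‖y‖) ^ q = (18 * K ^ 2) ^ q * ‖y‖ ^ q :=
    Real.mul_rpow (by positivity) (norm_nonneg _)
  have e5 : C4 / m * (18 * K ^ 2 * ‖y‖) ^ q *
      (∑ j ∈ range J, (Real.exp (-(j : ℝ) / (2 * m))) ^ p) ^ (q / p) ≤
      C4 * (18 * K ^ 2) ^ q * 3 ^ (q / p) * ((m : ℝ) ^ (q / p) / m) * ‖y‖ ^ q := by
    rw [e4]
    calc C4 / m * ((18 * K ^ 2) ^ q * ‖y‖ ^ q) *
        (∑ j ∈ range J, (Real.exp (-(j : ℝ) / (2 * m))) ^ p) ^ (q / p)
        ≤ C4 / m * ((18 * K ^ 2) ^ q * ‖y‖ ^ q) * (3 ^ (q / p) * (m : ℝ) ^ (q / p)) :=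
          mul_le_mul_of_nonneg_left e1 (by positivity)
      _ = C4 * (18 * K ^ 2) ^ q * 3 ^ (q / p) * ((m : ℝ) ^ (q / p) / m) * ‖y‖ ^ q := by ring
  have e6 : (δ - -δ) • ‖y‖ ^ q ≤ ((m : ℝ) ^ (q / p) / m) * ‖y‖ ^ q := by
    rw [smul_eq_mul]
    apply mul_le_mul_of_nonneg_right _ (by positivity)
    have : δ - -δ = 1 / 4 / m := by rw [hδ]; field_simp; norm_num
    rw [this]
    apply div_le_div_of_nonneg_right _ hm0.le
    linarith
  rw [e2]
  calc 2 ^ q * ((∫ φ in (-δ)..δ, ‖∑ j ∈ range J,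
        Complex.exp ((j : ℂ) * (m : ℂ) * (φ : ℂ) * Complex.I) • Hc T m y j (φ : ℂ)‖ ^ q) +
        (δ - -δ) • ‖y‖ ^ q)
      ≤ 2 ^ q * (C4 * (18 * K ^ 2) ^ q * 3 ^ (q / p) * ((m : ℝ) ^ (q / p) / m) * ‖y‖ ^ q +
        ((m : ℝ) ^ (q / p) / m) * ‖y‖ ^ q) := by
        apply mul_le_mul_of_nonneg_left _ (by positivity)
        exact add_le_add (hfour.trans e5) e6
    _ = 2 ^ q * (C4 * (18 * K ^ 2) ^ q * 3 ^ (q / p) + 1) * ((m : ℝ) ^ (q / p) / m) *
        ‖y‖ ^ q := by ring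

end Pool.Agent.R221.FT
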