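import Mathlib
import Pool.Agent.R221.FT.Defs

namespace Pool.Agent.R221.FT
open Finset MeasureTheory
open scoped Real
universe u

theorem Good_mono {X : Type u} [NormedAddCommGroup X] [NormedSpace ℂ X] {K : ℝ}
    {T : X →L[ℂ] X} (h : Good K T) : Good (max K 1) T := by
  intro ζ hζ
  refine ⟨(h ζ hζ).1, fun k hk => ((h ζ hζ).2 k hk).trans ?_⟩
  apply div_le_div_of_nonneg_right (le_max_left _ _)
  have : 0 < ‖ζ‖ - 1 := by linarith
  positivity

theorem main (hgro : S_gro.{u}) (hdual : S_dual.{u}) (hfin : S_fin.{u}) (p q CF K : ℝ)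
    (hpq : p.HolderConjugate q) (hp2 : p ≤ 2) (hCF : 0 ≤ CF) :
    ∃ (C : ℝ) (β : ℕ), ∀ (X : Type u) [NormedAddCommGroup X] [NormedSpace ℂ X] [CompleteSpace X],
      FourierType X p q CF → FourierType (X →L[ℂ] ℂ) p q CF →
      ∀ T : X →L[ℂ] X, Good K T → ∀ n : ℕ, 1 ≤ n →
        ‖T ^ n‖ ≤ C * (n : ℝ) ^ (1 / p - 1 / 2) * (Real.log (n + 2)) ^ β := by
  have hK : 1 ≤ max K 1 := le_max_right _ _
  obtain ⟨D, κ, hD, H⟩ := hgro p q CF (max K 1) hpq hp2 hCF hK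
  obtain ⟨C, β, HC⟩ := hfin p q (max K 1) D κ hpq hp2 hK hD
  refine ⟨|C| * 2 ^ β, β, ?_⟩
  intro X _ _ _ h1 h2 T hT n hn
  have hG := Good_mono hT
  have hG' := (hdual X (max K 1) T hG).1
  have hb := HC X T hG (H X h1 T hG) (H (X →L[ℂ] ℂ) h2 (adj T) hG') n hn
  have hn1 : (1 : ℝ) ≤ n := by exact_mod_cast hn
  have hlog : 0 ≤ Real.log n := Real.log_nonneg hn1
  have hl : 1 + Real.log n ≤ 2 * Real.log (n + 2) := by
    have e1 : Real.log n ≤ Real.log (n + 2) := Real.log_le_log (by linarith) (by linarith)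
    have e2 : 1 ≤ Real.log ((n : ℝ) + 2) := by
      rw [Real.le_log_iff_exp_le (by linarith)]
      have := Real.exp_one_lt_d9
      linarith
    linarith
  have hpow : (1 + Real.log n) ^ β ≤ 2 ^ β * (Real.log (n + 2)) ^ β := by
    rw [← mul_pow]
    exact pow_le_pow_left₀ (by linarith) hl β
  have hnp : 0 ≤ (n : ℝ) ^ (1 / p - 1 / 2) := by positivity
  calc ‖T ^ n‖ ≤ C * (n : ℝ) ^ (1 / p - 1 / 2) * (1 + Real.log n) ^ β := hb
    _ ≤ |C| * (n : ℝ) ^ (1 / p - 1 / 2) * (1 + Real.log n) ^ β := by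
        apply mul_le_mul_of_nonneg_right _ (by positivity)
        exact mul_le_mul_of_nonneg_right (le_abs_self C) hnp
    _ ≤ |C| * (n : ℝ) ^ (1 / p - 1 / 2) * (2 ^ β * (Real.log (n + 2)) ^ β) :=
        mul_le_mul_of_nonneg_left hpow (by positivity)
    _ = |C| * 2 ^ β * (n : ℝ) ^ (1 / p - 1 / 2) * (Real.log (n + 2)) ^ β := by ring

end Pool.Agent.R221.FT
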