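import Pool.Agent.R221.FT.Defs

namespace Pool.Agent.R221.FT

theorem rec2 : S_rec2 := by
  intro C s q hC hs hq
  have hA : (0 : ℝ) < C * (4 : ℝ) ^ s := by positivity
  obtain ⟨κ, hκ⟩ := exists_pow_lt_of_lt_one (inv_pos.2 hA) (by norm_num : (4 / 5 : ℝ) < 1)
  have hκ' : C * (4 : ℝ) ^ s * (4 / 5 : ℝ) ^ κ ≤ 1 := by
    have := mul_le_mul_of_nonneg_left hκ.le hA.le
    rwa [mul_inv_cancel₀ hA.ne'] at this
  refine ⟨(64 : ℝ) ^ q, κ, by positivity, ?_⟩
  intro F Λ hΛ hF h1 h2 n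
  induction n using Nat.strong_induction_on with
  | _ n ih =>
    intro hn
    have hn1 : (1 : ℝ) ≤ n := by exact_mod_cast hn
    have hlog : 0 ≤ Real.log n := Real.log_nonneg hn1
    have hns : (1 : ℝ) ≤ (n : ℝ) ^ s := Real.one_le_rpow hn1 hs.le
    rcases lt_or_ge n 64 with h64 | h64
    · have h3 := h2 n hn
      have h4 : (n : ℝ) ^ q ≤ (64 : ℝ) ^ q :=
        Real.rpow_le_rpow (by positivity) (by exact_mod_cast h64.le) hq.le
      have h5 : (1 : ℝ) ≤ (1 + Real.log n) ^ κ := one_le_pow₀ (by linarith)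
      calc F n ≤ Λ * (n : ℝ) ^ q := h3
        _ ≤ Λ * (64 : ℝ) ^ q := mul_le_mul_of_nonneg_left h4 hΛ
        _ = (64 : ℝ) ^ q * Λ * 1 * 1 := by ring
        _ ≤ (64 : ℝ) ^ q * Λ * (n : ℝ) ^ s * (1 + Real.log n) ^ κ := by gcongr
    · set m := Nat.sqrt n + 1 with hm
      have hm1 : 1 ≤ m := by omega
      have hnm : n ≤ m ^ 2 := by
        have := Nat.lt_succ_sqrt n
        have e : m ^ 2 = (Nat.sqrt n).succ * (Nat.sqrt n).succ := by
          rw [hm, pow_two]
        omega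
      have hsq : Nat.sqrt n * Nat.sqrt n ≤ n := Nat.sqrt_le n
      have hmn : m < n := by
        by_contra hcon
        have h3 : n ≤ Nat.sqrt n + 1 := by omega
        nlinarith
      have h3 := h1 m n hn hm1 hnm
      have h4 := ih m hmn hm1
      have hm1' : (1 : ℝ) ≤ m := by exact_mod_cast hm1
      have hsqR : (Nat.sqrt n : ℝ) * (Nat.sqrt n : ℝ) ≤ n := by exact_mod_cast hsq
      have hs1 : 1 ≤ Nat.sqrt n := by
        rw [Nat.one_le_iff_ne_zero]
        intro h0
        rw [Nat.sqrt_eq_zero] at h0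
        omega
      have hs1' : (1 : ℝ) ≤ (Nat.sqrt n : ℝ) := by exact_mod_cast hs1
      have hm2 : (m : ℝ) ^ 2 ≤ 4 * n := by
        have : (m : ℝ) = (Nat.sqrt n : ℝ) + 1 := by rw [hm]; push_cast; ring
        rw [this]
        nlinarith
      have hmpos : (0 : ℝ) < m := by linarith
      have hms : (m : ℝ) ^ s * (m : ℝ) ^ s ≤ (4 : ℝ) ^ s * (n : ℝ) ^ s := by
        rw [← Real.mul_rpow hmpos.le hmpos.le, ← Real.mul_rpow (by norm_num) (by linarith)]
        apply Real.rpow_le_rpow (by positivity) _ hs.le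
        nlinarith
      have hlm : 0 ≤ Real.log m := Real.log_nonneg hm1'
      have hlog2 : Real.log 2 < 0.6931471808 := Real.log_two_lt_d9
      have hlog2' : 0.6931471803 < Real.log 2 := Real.log_two_gt_d9
      have hL64 : 4 ≤ Real.log n := by
        have h5 : Real.log 64 ≤ Real.log n := Real.log_le_log (by norm_num) (by exact_mod_cast h64)
        have h6 : Real.log 64 = 6 * Real.log 2 := by
          rw [show (64 : ℝ) = 2 ^ 6 by norm_num, Real.log_pow]; norm_num
        linarith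
      have hlogm : 1 + Real.log m ≤ 4 / 5 * (1 + Real.log n) := by
        have h5 : Real.log ((m : ℝ) ^ 2) ≤ Real.log (4 * n) := Real.log_le_log (by positivity) hm2
        rw [Real.log_pow, Real.log_mul (by norm_num) (by linarith)] at h5
        have h6 : Real.log 4 = 2 * Real.log 2 := by
          rw [show (4 : ℝ) = 2 ^ 2 by norm_num, Real.log_pow]; norm_num
        push_cast at h5
        linarith
      have hpow : (1 + Real.log m) ^ κ ≤ (4 / 5 : ℝ) ^ κ * (1 + Real.log n) ^ κ := by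
        rw [← mul_pow]
        exact pow_le_pow_left₀ (by linarith) hlogm κ
      have hP : (0 : ℝ) ≤ (1 + Real.log n) ^ κ := by positivity
      calc F n ≤ C * (m : ℝ) ^ s * F m := h3
        _ ≤ C * (m : ℝ) ^ s * ((64 : ℝ) ^ q * Λ * (m : ℝ) ^ s * (1 + Real.log m) ^ κ) := by
            gcongr
        _ = (64 : ℝ) ^ q * Λ * C * ((m : ℝ) ^ s * (m : ℝ) ^ s) * (1 + Real.log m) ^ κ := by ring
        _ ≤ (64 : ℝ) ^ q * Λ * C * ((4 : ℝ) ^ s * (n : ℝ) ^ s) *
              ((4 / 5 : ℝ) ^ κ * (1 + Real.log n) ^ κ) := by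
            gcongr
        _ = (C * (4 : ℝ) ^ s * (4 / 5 : ℝ) ^ κ) *
              ((64 : ℝ) ^ q * Λ * (n : ℝ) ^ s * (1 + Real.log n) ^ κ) := by ring
        _ ≤ 1 * ((64 : ℝ) ^ q * Λ * (n : ℝ) ^ s * (1 + Real.log n) ^ κ) := by
            gcongr
        _ = _ := one_mul _

end Pool.Agent.R221.FT
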