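import Pool.Agent.R221.FT.Defs

/-! Fourier coefficients of the powers of the resolvent at `2`. -/

namespace Pool.Agent.R221.FT
open Finset MeasureTheory Filter Topology
open scoped Real ENNReal
universe u

namespace Ser
variable {X : Type u} [NormedAddCommGroup X] [NormedSpace ℂ X]

/-- powers of `T / 2` tend to zero -/
lemma pow_tendsto [CompleteSpace X] (T : X →L[ℂ] X)
    (hs : spectrum ℂ T ⊆ Metric.closedBall 0 1) :
    Tendsto (fun n : ℕ => ‖T ^ n‖ / 2 ^ n) atTop (𝓝 0) := by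
  have h1 : spectralRadius ℂ T ≤ 1 := by
    unfold spectralRadius
    refine iSup₂_le fun k hk => ?_
    have := hs hk
    rw [mem_closedBall_zero_iff] at this
    exact_mod_cast this
  have h2 := spectrum.pow_nnnorm_pow_one_div_tendsto_nhds_spectralRadius T
  have h3 : spectralRadius ℂ T < ((3 / 2 : NNReal) : ℝ≥0∞) := by
    refine h1.trans_lt ?_
    rw [← ENNReal.coe_one, ENNReal.coe_lt_coe]
    rw [← NNReal.coe_lt_coe]
    norm_num
  have h4 := h2.eventually_lt_const h3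
  have h5 : ∀ᶠ n : ℕ in atTop, ‖T ^ n‖ / 2 ^ n ≤ (3 / 4 : ℝ) ^ n := by
    filter_upwards [h4, eventually_gt_atTop 0] with n hn hn0
    have h6 : ((‖T ^ n‖₊ : ℝ≥0∞) ^ (1 / n : ℝ)) ^ (n : ℝ) ≤
        (((3 / 2 : NNReal) : ℝ≥0∞)) ^ (n : ℝ) :=
      ENNReal.rpow_le_rpow hn.le (Nat.cast_nonneg n)
    rw [← ENNReal.rpow_mul, one_div_mul_cancel (by exact_mod_cast hn0.ne'), ENNReal.rpow_one,
      ENNReal.rpow_natCast, ← ENNReal.coe_pow, ENNReal.coe_le_coe] at h6
    have h7 : ‖T ^ n‖ ≤ (3 / 2 : ℝ) ^ n := by exact_mod_cast h6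
    rw [div_le_iff₀ (by positivity)]
    calc ‖T ^ n‖ ≤ (3 / 2 : ℝ) ^ n := h7
      _ = (3 / 4) ^ n * 2 ^ n := by rw [← mul_pow]; norm_num
  have h8 : Tendsto (fun n : ℕ => (3 / 4 : ℝ) ^ n) atTop (𝓝 0) :=
    tendsto_pow_atTop_nhds_zero_of_lt_one (by norm_num) (by norm_num)
  exact squeeze_zero' (Eventually.of_forall fun n => by positivity) h5 h8

lemma Good.spec {K : ℝ} {T : X →L[ℂ] X} (h : Good K T) :
    spectrum ℂ T ⊆ Metric.closedBall 0 1 := by
  intro ζ hζ
  rw [mem_closedBall_zero_iff]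
  by_contra hcon
  push Not at hcon
  exact hζ (h ζ hcon).1

/-- the Fourier coefficient -/
noncomputable def I (T : X →L[ℂ] X) (N : ℕ) (n : ℤ) : X →L[ℂ] X :=
  ∫ θ in (0 : ℝ)..(2 * π),
      Complex.exp (-((n : ℂ) * (θ : ℂ) * Complex.I)) • (Vs (rot T θ)) ^ N

lemma norm_exp (n : ℤ) (θ : ℝ) : ‖Complex.exp (-((n : ℂ) * (θ : ℂ) * Complex.I))‖ = 1 := by
  have : -((n : ℂ) * (θ : ℂ) * Complex.I) = ((-(n * θ) : ℝ) : ℂ) * Complex.I := by
    push_cast
    ring
  rw [this, Complex.norm_exp_ofReal_mul_I]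

lemma good_rot {K : ℝ} {T : X →L[ℂ] X} (h : Good K T) (θ : ℝ) : Good K (rot T θ) := by
  intro ζ hζ
  set c : ℂ := Complex.exp ((θ : ℂ) * Complex.I) with hc
  have hcn : ‖c‖ = 1 := Complex.norm_exp_ofReal_mul_I θ
  have hc0 : c ≠ 0 := by
    intro h0
    rw [h0, norm_zero] at hcn
    exact zero_ne_one hcn
  have hζ' : ‖c⁻¹ * ζ‖ = ‖ζ‖ := by rw [norm_mul, norm_inv, hcn, inv_one, one_mul]
  obtain ⟨hu, hk⟩ := h (c⁻¹ * ζ) (by rw [hζ']; exact hζ)
  have e : algebraMap ℂ (X →L[ℂ] X) ζ - rot T θ =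
      c • (algebraMap ℂ (X →L[ℂ] X) (c⁻¹ * ζ) - T) := by
    rw [smul_sub, rot, ← hc, Algebra.algebraMap_eq_smul_one, Algebra.algebraMap_eq_smul_one,
      smul_smul, mul_inv_cancel_left₀ hc0]
  have h1 : (algebraMap ℂ (X →L[ℂ] X) ζ - rot T θ) * (c⁻¹ • resolvent T (c⁻¹ * ζ)) = 1 := by
    rw [e, smul_mul_smul_comm, mul_inv_cancel₀ hc0, one_smul, resolvent]
    exact Ring.mul_inverse_cancel _ hu
  have h1' : (c⁻¹ • resolvent T (c⁻¹ * ζ)) * (algebraMap ℂ (X →L[ℂ] X) ζ - rot T θ) = 1 := by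
    rw [e, smul_mul_smul_comm, inv_mul_cancel₀ hc0, one_smul, resolvent]
    exact Ring.inverse_mul_cancel _ hu
  have hu' : IsUnit (algebraMap ℂ (X →L[ℂ] X) ζ - rot T θ) := ⟨⟨_, _, h1, h1'⟩, rfl⟩
  refine ⟨hu', fun k hk1 => ?_⟩
  have er : resolvent (rot T θ) ζ = c⁻¹ • resolvent T (c⁻¹ * ζ) := by
    rw [resolvent]
    have h5 := Ring.inverse_mul_cancel _ hu'
    calc Ring.inverse (algebraMap ℂ (X →L[ℂ] X) ζ - rot T θ)
        = Ring.inverse (algebraMap ℂ (X →L[ℂ] X) ζ - rot T θ) *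
          ((algebraMap ℂ (X →L[ℂ] X) ζ - rot T θ) * (c⁻¹ • resolvent T (c⁻¹ * ζ))) := by
          rw [h1, mul_one]
      _ = c⁻¹ • resolvent T (c⁻¹ * ζ) := by rw [← mul_assoc, h5, one_mul]
  rw [er, smul_pow, norm_smul, norm_pow, norm_inv, hcn, inv_one, one_pow, one_mul]
  have := hk k hk1
  rwa [hζ'] at this

lemma isUnit_two {K : ℝ} {T : X →L[ℂ] X} (h : Good K T) :
    IsUnit (algebraMap ℂ (X →L[ℂ] X) 2 - T) := (h 2 (by norm_num)).1

lemma V_cont [CompleteSpace X] {K : ℝ} {T : X →L[ℂ] X} (h : Good K T) :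
    Continuous fun θ : ℝ => Vs (rot T θ) := by
  rw [continuous_iff_continuousAt]
  intro θ
  obtain ⟨u, hu⟩ := isUnit_two (good_rot h θ)
  have h1 : Continuous fun θ : ℝ => algebraMap ℂ (X →L[ℂ] X) 2 - rot T θ := by
    unfold rot
    have h0 : Continuous fun θ : ℝ => Complex.exp ((θ : ℂ) * Complex.I) :=
      Complex.continuous_exp.comp (Complex.continuous_ofReal.mul continuous_const)
    exact continuous_const.sub (h0.smul continuous_const)
  have h2 : ContinuousAt Ring.inverse (algebraMap ℂ (X →L[ℂ] X) 2 - rot T θ) := by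
    rw [← hu]
    exact NormedRing.inverse_continuousAt u
  exact ContinuousAt.comp (f := fun θ : ℝ => algebraMap ℂ (X →L[ℂ] X) 2 - rot T θ)
    (g := Ring.inverse) h2 h1.continuousAt

lemma V_norm {K : ℝ} {T : X →L[ℂ] X} (h : Good K T) (θ : ℝ) (N : ℕ) (hN : 1 ≤ N) :
    ‖(Vs (rot T θ)) ^ N‖ ≤ K := by
  have h1 := ((good_rot h θ) 2 (by norm_num)).2 N hN
  have h2 : ‖(2 : ℂ)‖ - 1 = 1 := by norm_num
  rw [h2, one_pow, div_one] at h1
  exact h1

lemma V_rel {K : ℝ} {T : X →L[ℂ] X} (h : Good K T) (θ : ℝ) (N : ℕ) :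
    (2 : ℂ) • (Vs (rot T θ)) ^ (N + 1) - rot T θ * (Vs (rot T θ)) ^ (N + 1) =
      (Vs (rot T θ)) ^ N := by
  have h1 : (algebraMap ℂ (X →L[ℂ] X) 2 - rot T θ) * Vs (rot T θ) = 1 := by
    rw [Vs, resolvent]
    exact Ring.mul_inverse_cancel _ (isUnit_two (good_rot h θ))
  have h2 : (algebraMap ℂ (X →L[ℂ] X) 2 - rot T θ) * (Vs (rot T θ)) ^ (N + 1) =
      (Vs (rot T θ)) ^ N := by
    rw [pow_succ', ← mul_assoc, h1, one_mul]
  rw [← h2, sub_mul, Algebra.algebraMap_eq_smul_one, smul_mul_assoc, one_mul]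

lemma cont_int [CompleteSpace X] {K : ℝ} {T : X →L[ℂ] X} (h : Good K T) (N : ℕ) (n : ℤ) :
    Continuous fun θ : ℝ =>
      Complex.exp (-((n : ℂ) * (θ : ℂ) * Complex.I)) • (Vs (rot T θ)) ^ N := by
  have h0 : Continuous fun θ : ℝ => Complex.exp (-((n : ℂ) * (θ : ℂ) * Complex.I)) :=
    Complex.continuous_exp.comp ((continuous_const.mul Complex.continuous_ofReal).mul
      continuous_const).neg
  exact h0.smul ((V_cont h).pow N)

lemma I_rel [CompleteSpace X] {K : ℝ} {T : X →L[ℂ] X} (h : Good K T) (N : ℕ) (n : ℤ) :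
    (2 : ℂ) • I T (N + 1) n = T * I T (N + 1) (n - 1) + I T N n := by
  have h1 : T * I T (N + 1) (n - 1) = ∫ θ in (0 : ℝ)..(2 * π),
      T * (Complex.exp (-(((n - 1 : ℤ) : ℂ) * (θ : ℂ) * Complex.I)) •
        (Vs (rot T θ)) ^ (N + 1)) := by
    have h2 := ContinuousLinearMap.intervalIntegral_comp_comm
      (ContinuousLinearMap.mul ℂ (X →L[ℂ] X) T)
      ((cont_int h (N + 1) (n - 1)).intervalIntegrable (μ := volume) 0 (2 * π))
    exact h2.symm
  have h3 : Continuous fun θ : ℝ => T * (Complex.exp (-(((n - 1 : ℤ) : ℂ) * (θ : ℂ) *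
      Complex.I)) • (Vs (rot T θ)) ^ (N + 1)) :=
    continuous_const.mul (cont_int h (N + 1) (n - 1))
  rw [h1, I, I, ← intervalIntegral.integral_smul,
    ← intervalIntegral.integral_add (h3.intervalIntegrable _ _)
      ((cont_int h N n).intervalIntegrable _ _)]
  refine intervalIntegral.integral_congr fun θ _ => ?_
  have h4 := V_rel h θ N
  have h5 : Complex.exp (-(((n - 1 : ℤ) : ℂ) * (θ : ℂ) * Complex.I)) =
      Complex.exp (-((n : ℂ) * (θ : ℂ) * Complex.I)) * Complex.exp ((θ : ℂ) * Complex.I) := by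
    rw [← Complex.exp_add]
    congr 1
    push_cast
    ring
  show (2 : ℂ) • (Complex.exp (-((n : ℂ) * (θ : ℂ) * Complex.I)) • (Vs (rot T θ)) ^ (N + 1)) =
    T * (Complex.exp (-(((n - 1 : ℤ) : ℂ) * (θ : ℂ) * Complex.I)) • (Vs (rot T θ)) ^ (N + 1)) +
      Complex.exp (-((n : ℂ) * (θ : ℂ) * Complex.I)) • (Vs (rot T θ)) ^ N
  rw [← h4, h5, smul_comm, smul_sub, mul_smul_comm, mul_smul]
  have h6 : Complex.exp ((θ : ℂ) * Complex.I) • (T * (Vs (rot T θ)) ^ (N + 1)) =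
      rot T θ * (Vs (rot T θ)) ^ (N + 1) := by
    rw [rot, smul_mul_assoc]
  rw [h6]
  abel

lemma I_norm [CompleteSpace X] {K : ℝ} {T : X →L[ℂ] X} (h : Good K T) (N : ℕ) (hN : 1 ≤ N)
    (n : ℤ) : ‖I T N n‖ ≤ K * |2 * π - 0| := by
  refine intervalIntegral.norm_integral_le_of_norm_le_const fun θ _ => ?_
  rw [norm_smul, norm_exp, one_mul]
  exact V_norm h θ N hN

lemma I_zero [CompleteSpace X] (T : X →L[ℂ] X) (n : ℤ) :
    I T 0 n = if n = 0 then ((2 * π : ℝ) : ℂ) • (1 : X →L[ℂ] X) else 0 := by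
  unfold I
  simp only [pow_zero]
  rw [intervalIntegral.integral_smul_const]
  by_cases hn : n = 0
  · rw [if_pos hn, hn]
    simp
  · rw [if_neg hn]
    have hc : (-((n : ℂ) * Complex.I)) ≠ 0 := by
      rw [neg_ne_zero]
      exact mul_ne_zero (by exact_mod_cast hn) Complex.I_ne_zero
    have h1 : ∫ θ in (0 : ℝ)..(2 * π), Complex.exp (-((n : ℂ) * (θ : ℂ) * Complex.I)) =
        ∫ θ in (0 : ℝ)..(2 * π), Complex.exp ((-((n : ℂ) * Complex.I)) * (θ : ℂ)) := by
      refine intervalIntegral.integral_congr fun θ _ => ?_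
      show Complex.exp (-((n : ℂ) * (θ : ℂ) * Complex.I)) =
        Complex.exp ((-((n : ℂ) * Complex.I)) * (θ : ℂ))
      congr 1
      ring
    rw [h1, integral_exp_mul_complex hc]
    have h2 : Complex.exp (-((n : ℂ) * Complex.I) * ((2 * π : ℝ) : ℂ)) = 1 := by
      rw [Complex.exp_eq_one_iff]
      refine ⟨-n, ?_⟩
      push_cast
      ring
    rw [h2]
    simp

lemma I_neg [CompleteSpace X] {K : ℝ} {T : X →L[ℂ] X} (h : Good K T) (N : ℕ) :
    ∀ n : ℤ, n < 0 → I T N n = 0 := by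
  induction N with
  | zero =>
    intro n hn
    rw [I_zero, if_neg hn.ne]
  | succ N ih =>
    have h1 : ∀ n : ℤ, n < 0 → (2 : ℂ) • I T (N + 1) n = T * I T (N + 1) (n - 1) := by
      intro n hn
      rw [I_rel h, ih n hn, add_zero]
    have h2 : ∀ (j : ℕ) (n : ℤ), n < 0 → (2 : ℂ) ^ j • I T (N + 1) n =
        T ^ j * I T (N + 1) (n - j) := by
      intro j
      induction j with
      | zero =>
        intro n _
        simp
      | succ j ihj =>
        intro n hn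
        rw [pow_succ, mul_smul, h1 n hn, ← mul_smul_comm, ihj (n - 1) (by omega), ← mul_assoc,
          ← pow_succ']
        congr 2
        push_cast
        ring
    intro n hn
    have h3 : ∀ j : ℕ, ‖I T (N + 1) n‖ ≤ ‖T ^ j‖ / 2 ^ j * (K * |2 * π - 0|) := by
      intro j
      have h4 := congrArg norm (h2 j n hn)
      rw [norm_smul, norm_pow, Complex.norm_ofNat] at h4
      have h5 : (2 : ℝ) ^ j * ‖I T (N + 1) n‖ ≤ ‖T ^ j‖ * (K * |2 * π - 0|) := by
        rw [h4]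
        exact (norm_mul_le _ _).trans
          (mul_le_mul_of_nonneg_left (I_norm h (N + 1) (by omega) _) (norm_nonneg _))
      rw [div_mul_eq_mul_div, le_div_iff₀ (by positivity)]
      linarith
    have h6 : Tendsto (fun j : ℕ => ‖T ^ j‖ / 2 ^ j * (K * |2 * π - 0|)) atTop (𝓝 0) := by
      have := (pow_tendsto T (Good.spec h)).mul_const (K * |2 * π - 0|)
      rwa [zero_mul] at this
    have h7 : ‖I T (N + 1) n‖ ≤ 0 := ge_of_tendsto h6 (Eventually.of_forall h3)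
    exact norm_le_zero_iff.1 h7

lemma w_zero (n : ℕ) : SK.w 0 n = if n = 0 then 1 else 0 := by
  unfold SK.w
  rcases n with _ | n
  · simp
  · rw [if_neg (Nat.succ_ne_zero n)]
    have : (n + 1 + 0 - 1).choose (n + 1) = 0 := Nat.choose_eq_zero_of_lt (by omega)
    rw [this]
    simp

lemma w_succ_zero (N : ℕ) : 2 * SK.w (N + 1) 0 = SK.w N 0 := by
  unfold SK.w
  simp only [Nat.choose_zero_right, Nat.cast_one, zero_add]
  rw [pow_succ]
  field_simp

lemma w_succ (N n : ℕ) : 2 * SK.w (N + 1) (n + 1) = SK.w (N + 1) n + SK.w N (n + 1) := by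
  unfold SK.w
  have e1 : n + 1 + (N + 1) - 1 = (n + N) + 1 := by omega
  have e2 : n + (N + 1) - 1 = n + N := by omega
  have e3 : n + 1 + N - 1 = n + N := by omega
  rw [e1, e2, e3, Nat.choose_succ_succ]
  have e4 : n + 1 + (N + 1) = (n + N + 1) + 1 := by ring
  have e5 : n + (N + 1) = n + N + 1 := by ring
  have e6 : n + 1 + N = n + N + 1 := by ring
  rw [e4, e5, e6, pow_succ]
  push_cast
  field_simp

lemma I_pos [CompleteSpace X] {K : ℝ} {T : X →L[ℂ] X} (h : Good K T) (N : ℕ) :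
    ∀ n : ℕ, I T N (n : ℤ) = ((2 * π * SK.w N n : ℝ) : ℂ) • T ^ n := by
  induction N with
  | zero =>
    intro n
    rw [I_zero, w_zero]
    by_cases hn : n = 0
    · subst hn
      simp
    · have : (n : ℤ) ≠ 0 := by exact_mod_cast hn
      rw [if_neg this, if_neg hn]
      simp
  | succ N ih =>
    intro n
    have h2 : ∀ a b : X →L[ℂ] X, (2 : ℂ) • a = (2 : ℂ) • b → a = b := by
      intro a b hab
      exact smul_right_injective _ (two_ne_zero) hab
    induction n with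
    | zero =>
      apply h2
      rw [I_rel h, I_neg h (N + 1) ((0 : ℕ) - 1 : ℤ) (by norm_num), mul_zero, zero_add, ih 0,
        smul_smul]
      congr 1
      have := w_succ_zero N
      rw [← this]
      push_cast
      ring
    | succ n ihn =>
      apply h2
      have e1 : ((n + 1 : ℕ) : ℤ) - 1 = (n : ℤ) := by push_cast; ring
      rw [I_rel h, e1, ihn, ih (n + 1), mul_smul_comm, ← pow_succ', ← add_smul, smul_smul]
      congr 1
      have h3 := w_succ N n
      have h4 : (2 : ℂ) * ((SK.w (N + 1) (n + 1) : ℝ) : ℂ) =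
          ((SK.w (N + 1) n : ℝ) : ℂ) + ((SK.w N (n + 1) : ℝ) : ℂ) := by exact_mod_cast h3
      push_cast
      linear_combination (-(2 * (π : ℂ))) * h4

end Ser

open Ser in
theorem ser : S_ser := by
  intro X _ _ _ K T hT N n
  have h1 := I_pos hT N n
  unfold I at h1
  simpa using h1

end Pool.Agent.R221.FT
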